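import Pool.Graph.R_pool_sql_team_seeded_2aa45f1a.Q266.KM.Count

/-!
# Random maps to a graph: the round graph, counting
-/

set_option autoImplicit false

open Finset

namespace Pool.Agent.H59.GC

open Pool.Agent.Q266.KM

/-- resample a coordinate -/
theorem avg {X W : Type} [Fintype X] [DecidableEq X] [Fintype W] (x : X)
    (K : (X → W) → W → ℝ) (hK : ∀ ω s t, K (Function.update ω x s) t = K ω t) :
    (Fintype.card W : ℝ) * ∑ ω, K ω (ω x) = ∑ ω, ∑ t, K ω t := by
  classical
  have inv : Function.Involutive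
      fun q : (X → W) × W => (Function.update q.1 x q.2, q.1 x) := by
    rintro ⟨ω, t⟩; simp
  have h1 := Fintype.sum_equiv inv.toPerm (fun q : (X → W) × W => K q.1 (q.1 x))
    (fun q => K q.1 q.2) (fun q => by
      show K q.1 (q.1 x) = K (Function.update q.1 x q.2) (q.1 x)
      rw [hK])
  rw [Fintype.sum_prod_type, Fintype.sum_prod_type] at h1
  rw [← h1]
  simp [mul_sum]

variable {V W : Type}

/-- the edge `v u` of `R` is kept by the map `φ` to `H`: it is mapped to an edge, and no other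
edge at `v` or `u` gets the same image -/
def Cov (R : SimpleGraph V) (H : SimpleGraph W) (φ : V → W) (v u : V) : Prop :=
  R.Adj v u ∧ H.Adj (φ v) (φ u) ∧ (∀ w, R.Adj v w → w ≠ u → φ w ≠ φ u) ∧
    ∀ w, R.Adj u w → w ≠ v → φ w ≠ φ v

/-- the graph of the edges kept by `φ` -/
def rnd (R : SimpleGraph V) (H : SimpleGraph W) (φ : V → W) : SimpleGraph V where
  Adj := Cov R H φ
  symm := ⟨fun _ _ h => ⟨h.1.symm, h.2.1.symm, h.2.2.2, h.2.2.1⟩⟩
  loopless := ⟨fun _ h => R.irrefl h.1⟩

theorem rnd_le (R : SimpleGraph V) (H : SimpleGraph W) (φ : V → W) : rnd R H φ ≤ R :=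
  fun _ _ h => h.1

theorem rnd_imm (R : SimpleGraph V) (H : SimpleGraph W) (φ : V → W) : Imm (rnd R H φ) H φ where
  hom := fun _ _ h => h.2.1
  inj := by
    intro v u u' h h' he
    by_contra hne
    exact h.2.2.1 u' h'.1 (fun e => hne e.symm) he.symm

theorem Imm.deg_le {R : SimpleGraph V} {H : SimpleGraph W} {φ : V → W} (h : Imm R H φ) {d : ℕ}
    (hd : ∀ x, (H.neighborSet x).ncard ≤ d) (hf : ∀ x, (H.neighborSet x).Finite) (v : V) :
    (R.neighborSet v).ncard ≤ d := by
  refine le_trans ?_ (hd (φ v))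
  refine Set.ncard_le_ncard_of_injOn φ (fun u hu => h.hom v u hu) ?_ (hf _)
  intro u hu u' hu' he
  exact h.inj v u u' hu hu' he

section counting

variable [Fintype V] [DecidableEq V] [Fintype W] [DecidableEq W]

/-- the number of the maps which map an edge to an edge -/
theorem count_adj (H : SimpleGraph W) [DecidableRel H.Adj] (d : ℕ)
    (hd : ∀ x, (univ.filter fun y => H.Adj x y).card = d) {v u : V} (hvu : v ≠ u) :
    (Fintype.card W : ℝ) * ∑ φ : V → W, (if H.Adj (φ v) (φ u) then (1 : ℝ) else 0) =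
      (Fintype.card (V → W) : ℝ) * d := by
  have h := avg (W := W) u (fun φ t => if H.Adj (φ v) t then (1 : ℝ) else 0) (by
    intro ω s t
    rw [Function.update_of_ne hvu])
  rw [h]
  have : ∀ ω : V → W, ∑ t, (if H.Adj (ω v) t then (1 : ℝ) else 0) = d := by
    intro ω
    rw [Finset.sum_boole, hd]
  simp only [this, sum_const, card_univ, nsmul_eq_mul]

theorem count_bad (H : SimpleGraph W) [DecidableRel H.Adj] {v u w : V} (hwu : w ≠ u)
    (hwv : w ≠ v) :
    (Fintype.card W : ℝ) * ∑ φ : V → W,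
        (if H.Adj (φ v) (φ u) ∧ φ w = φ u then (1 : ℝ) else 0) =
      ∑ φ : V → W, (if H.Adj (φ v) (φ u) then (1 : ℝ) else 0) := by
  have h := avg (W := W) w (fun φ t => if H.Adj (φ v) (φ u) ∧ t = φ u then (1 : ℝ) else 0) (by
    intro ω s t
    rw [Function.update_of_ne hwu.symm, Function.update_of_ne hwv.symm])
  rw [h]
  refine sum_congr rfl fun φ _ => ?_
  by_cases ha : H.Adj (φ v) (φ u)
  · simp [ha]
  · simp [ha]

open Classical in
/-- the proportion of the maps which keep a given edge -/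
theorem count_cov (R : SimpleGraph V) (H : SimpleGraph W) (d Δ : ℕ)
    (hd : ∀ x, (univ.filter fun y => H.Adj x y).card = d)
    (hR : ∀ v, (univ.filter fun u => R.Adj v u).card ≤ Δ)
    (hN : 4 * Δ ≤ Fintype.card W) {v u : V} (hvu : R.Adj v u) :
    (Fintype.card (V → W) : ℝ) * d ≤
      2 * Fintype.card W * ∑ φ : V → W, (if Cov R H φ v u then (1 : ℝ) else 0) := by
  set N : ℝ := (Fintype.card W : ℝ) with hNdef
  set A : ℝ := ∑ φ : V → W, (if H.Adj (φ v) (φ u) then (1 : ℝ) else 0) with hA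
  have hne : v ≠ u := hvu.ne
  have h1 : N * A = (Fintype.card (V → W) : ℝ) * d := count_adj H d hd hne
  have hA0 : 0 ≤ A := sum_nonneg fun φ _ => by split_ifs <;> norm_num
  have hΔ : 1 ≤ Δ := by
    refine le_trans ?_ (hR v)
    exact card_pos.2 ⟨u, by simpa using hvu⟩
  have hNpos : 0 < N := by
    have : 0 < Fintype.card W := by omega
    rw [hNdef]; exact_mod_cast this
  have hN4 : 4 * (Δ : ℝ) ≤ N := by rw [hNdef]; exact_mod_cast hN
  -- pointwise
  have hpt : ∀ φ : V → W, (if H.Adj (φ v) (φ u) then (1 : ℝ) else 0) -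
      ∑ w ∈ (univ.filter fun w => R.Adj v w).erase u,
        (if H.Adj (φ v) (φ u) ∧ φ w = φ u then (1 : ℝ) else 0) -
      ∑ w ∈ (univ.filter fun w => R.Adj u w).erase v,
        (if H.Adj (φ u) (φ v) ∧ φ w = φ v then (1 : ℝ) else 0) ≤
      (if Cov R H φ v u then (1 : ℝ) else 0) := by
    intro φ
    have s1 : 0 ≤ ∑ w ∈ (univ.filter fun w => R.Adj v w).erase u,
        (if H.Adj (φ v) (φ u) ∧ φ w = φ u then (1 : ℝ) else 0) :=
      sum_nonneg fun _ _ => by split_ifs <;> norm_num
    have s2 : 0 ≤ ∑ w ∈ (univ.filter fun w => R.Adj u w).erase v,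
        (if H.Adj (φ u) (φ v) ∧ φ w = φ v then (1 : ℝ) else 0) :=
      sum_nonneg fun _ _ => by split_ifs <;> norm_num
    by_cases hc : Cov R H φ v u
    · rw [if_pos hc]
      have : (if H.Adj (φ v) (φ u) then (1 : ℝ) else 0) ≤ 1 := by split_ifs <;> norm_num
      linarith
    · rw [if_neg hc]
      by_cases ha : H.Adj (φ v) (φ u)
      · rw [if_pos ha]
        have hc' : (∃ w, R.Adj v w ∧ w ≠ u ∧ φ w = φ u) ∨ ∃ w, R.Adj u w ∧ w ≠ v ∧ φ w = φ v := by
          by_contra hcon
          push Not at hcon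
          exact hc ⟨hvu, ha, fun w h1 h2 => hcon.1 w h1 h2, fun w h1 h2 => hcon.2 w h1 h2⟩
        rcases hc' with ⟨w, hw1, hw2, hw3⟩ | ⟨w, hw1, hw2, hw3⟩
        · have : (1 : ℝ) ≤ ∑ w ∈ (univ.filter fun w => R.Adj v w).erase u,
              (if H.Adj (φ v) (φ u) ∧ φ w = φ u then (1 : ℝ) else 0) := by
            have hm : w ∈ (univ.filter fun w => R.Adj v w).erase u := by simp [hw1, hw2]
            refine le_trans ?_ (single_le_sum (fun _ _ => by split_ifs <;> norm_num) hm)
            rw [if_pos ⟨ha, hw3⟩]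
          linarith
        · have : (1 : ℝ) ≤ ∑ w ∈ (univ.filter fun w => R.Adj u w).erase v,
              (if H.Adj (φ u) (φ v) ∧ φ w = φ v then (1 : ℝ) else 0) := by
            have hm : w ∈ (univ.filter fun w => R.Adj u w).erase v := by simp [hw1, hw2]
            refine le_trans ?_ (single_le_sum (fun _ _ => by split_ifs <;> norm_num) hm)
            rw [if_pos ⟨ha.symm, hw3⟩]
          linarith
      · rw [if_neg ha]
        linarith
  have hsum := sum_le_sum fun φ (_ : φ ∈ (univ : Finset (V → W))) => hpt φ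
  rw [sum_sub_distrib, sum_sub_distrib, sum_comm, sum_comm (s := univ)
    (t := (univ.filter fun w => R.Adj u w).erase v)] at hsum
  have hA' : ∑ φ : V → W, (if H.Adj (φ u) (φ v) then (1 : ℝ) else 0) = A := by
    rw [hA]
    refine sum_congr rfl fun φ _ => ?_
    simp only [SimpleGraph.adj_comm]
  have b1 : N * ∑ w ∈ (univ.filter fun w => R.Adj v w).erase u,
      ∑ φ : V → W, (if H.Adj (φ v) (φ u) ∧ φ w = φ u then (1 : ℝ) else 0) ≤ Δ * A := by
    rw [mul_sum]
    have : ∀ w ∈ (univ.filter fun w => R.Adj v w).erase u,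
        N * ∑ φ : V → W, (if H.Adj (φ v) (φ u) ∧ φ w = φ u then (1 : ℝ) else 0) = A := by
      intro w hw
      rw [mem_erase, mem_filter] at hw
      exact count_bad H hw.1 hw.2.2.ne'
    rw [sum_congr rfl this, sum_const, nsmul_eq_mul]
    refine mul_le_mul_of_nonneg_right ?_ hA0
    exact_mod_cast (card_erase_le.trans (hR v))
  have b2 : N * ∑ w ∈ (univ.filter fun w => R.Adj u w).erase v,
      ∑ φ : V → W, (if H.Adj (φ u) (φ v) ∧ φ w = φ v then (1 : ℝ) else 0) ≤ Δ * A := by
    rw [mul_sum]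
    have : ∀ w ∈ (univ.filter fun w => R.Adj u w).erase v,
        N * ∑ φ : V → W, (if H.Adj (φ u) (φ v) ∧ φ w = φ v then (1 : ℝ) else 0) = A := by
      intro w hw
      rw [mem_erase, mem_filter] at hw
      rw [← hA']
      exact count_bad H hw.1 hw.2.2.ne'
    rw [sum_congr rfl this, sum_const, nsmul_eq_mul]
    refine mul_le_mul_of_nonneg_right ?_ hA0
    exact_mod_cast (card_erase_le.trans (hR u))
  set S := ∑ φ : V → W, (if Cov R H φ v u then (1 : ℝ) else 0)
  have h2 := mul_le_mul_of_nonneg_left hsum hNpos.le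
  have h3 : N * A - 2 * (Δ * A) ≤ N * S := by nlinarith
  have h4 : 2 * (2 * (Δ * A)) ≤ N * A := by nlinarith
  nlinarith

end counting

end Pool.Agent.H59.GC
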