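import Pool.Agent.H59.GC.A1
import Pool.Graph.R_seed8.Helper635.LLL

/-!
# One scale: the local lemma
-/

set_option autoImplicit false

open Finset

namespace Pool.Agent.H59.GC

open Pool.Agent.Q266.KM

/-- the potential -/
noncomputable def pot (h : ℕ) (η : ℝ) (n : ℕ) : ℝ := Real.exp (η * ((n - h : ℕ) : ℝ)) - 1

theorem pot_nonneg {h : ℕ} {η : ℝ} (hη : 0 ≤ η) (n : ℕ) : 0 ≤ pot h η n := by
  have : 0 ≤ η * ((n - h : ℕ) : ℝ) := by positivity
  have := Real.one_le_exp this
  unfold pot; linarith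

theorem pot_of_le {h : ℕ} {η : ℝ} {n : ℕ} (hn : n ≤ h) : pot h η n = 0 := by
  unfold pot
  rw [Nat.sub_eq_zero_of_le hn]; simp

theorem le_pot {h : ℕ} {η : ℝ} (hη : 0 ≤ η) {n : ℕ} (hn : h < n) : η ≤ pot h η n := by
  have h1 : (1 : ℝ) ≤ ((n - h : ℕ) : ℝ) := by
    have : 1 ≤ n - h := by omega
    exact_mod_cast this
  have h2 := Real.add_one_le_exp (η * ((n - h : ℕ) : ℝ))
  have h3 : η ≤ η * ((n - h : ℕ) : ℝ) := by nlinarith
  unfold pot; linarith

theorem exp_neg_le {t : ℝ} (h0 : 0 ≤ t) (h1 : t ≤ 1) : Real.exp (-t) ≤ 1 - t / 2 := by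
  rw [Real.exp_neg]
  have h2 := Real.add_one_le_exp t
  have h3 : (0 : ℝ) < t + 1 := by linarith
  have h4 : (Real.exp t)⁻¹ ≤ (t + 1)⁻¹ := inv_anti₀ h3 h2
  refine h4.trans ?_
  rw [inv_le_iff_one_le_mul₀ h3]
  nlinarith

theorem pot_sub (h d : ℕ) (hd : 1 ≤ d) {y : ℕ} (hy : y ≤ d) (n : ℕ) :
    pot h (1 / (d : ℝ)) (n - y) ≤ pot h (1 / (d : ℝ)) n * (1 - (y : ℝ) / (2 * d)) := by
  have hd0 : (0 : ℝ) < d := by exact_mod_cast hd
  have hη : (0 : ℝ) ≤ 1 / (d : ℝ) := by positivity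
  have hyd : (y : ℝ) ≤ d := by exact_mod_cast hy
  have hfac : 0 ≤ 1 - (y : ℝ) / (2 * d) := by
    rw [sub_nonneg, div_le_one (by positivity)]
    linarith
  rcases Nat.lt_or_ge h (n - y) with hlt | hge
  · have e : n - y - h = n - h - y := by omega
    have e2 : ((n - y - h : ℕ) : ℝ) = ((n - h : ℕ) : ℝ) - y := by
      rw [e, Nat.cast_sub (by omega)]
    unfold pot
    rw [e2, mul_sub, sub_eq_add_neg (1 / (d : ℝ) * ((n - h : ℕ) : ℝ)), Real.exp_add]
    have h1 : Real.exp (-(1 / (d : ℝ) * y)) ≤ 1 - (y : ℝ) / (2 * d) := by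
      have := exp_neg_le (t := 1 / (d : ℝ) * y) (by positivity) (by
        rw [one_div, inv_mul_eq_div, div_le_one hd0]; exact hyd)
      refine this.trans (le_of_eq ?_)
      field_simp
    have h2 := mul_le_mul_of_nonneg_left h1 (Real.exp_pos (1 / (d : ℝ) * ((n - h : ℕ) : ℝ))).le
    have h3 : (0 : ℝ) ≤ (y : ℝ) / (2 * d) := by positivity
    nlinarith
  · rw [pot_of_le hge]
    exact mul_nonneg (pot_nonneg hη n) hfac

section

variable {V W : Type} [Fintype V] [DecidableEq V] [Fintype W] [DecidableEq W]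

open Classical in
/-- one round -/
theorem step (R : SimpleGraph V) (H : SimpleGraph W) (d Δ : ℕ) (hd1 : 1 ≤ d)
    (hd : ∀ x, (univ.filter fun y => H.Adj x y).card = d)
    (hR : ∀ v, (univ.filter fun u => R.Adj v u).card ≤ Δ)
    (hΔ : 1 ≤ Δ) (hN : 4 * Δ ≤ Fintype.card W) (v : V) (U : Finset V)
    (hU : U ⊆ univ.filter fun u => R.Adj v u) :
    ∑ φ : V → W, pot (Δ / 2) (1 / (d : ℝ)) (U \ univ.filter (fun u => Cov R H φ v u)).card ≤
      ((Fintype.card (V → W) : ℝ) * (1 - (Δ : ℝ) / (8 * Fintype.card W))) *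
        pot (Δ / 2) (1 / (d : ℝ)) U.card := by
  have hd0 : (0 : ℝ) < d := by exact_mod_cast hd1
  have hη : (0 : ℝ) ≤ 1 / (d : ℝ) := by positivity
  rcases Nat.lt_or_ge (Δ / 2) U.card with hlt | hge
  swap
  · rw [pot_of_le hge, mul_zero]
    refine le_of_eq (sum_eq_zero fun φ _ => pot_of_le ?_)
    exact (card_le_card sdiff_subset).trans hge
  set N : ℝ := (Fintype.card W : ℝ) with hNdef
  have hNpos : 0 < N := by
    have : 0 < Fintype.card W := by omega
    rw [hNdef]; exact_mod_cast this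
  set P := pot (Δ / 2) (1 / (d : ℝ)) U.card with hP
  have hP0 : 0 ≤ P := pot_nonneg hη _
  -- the number of kept edges
  have hy : ∀ φ : V → W, (U ∩ univ.filter (fun u => Cov R H φ v u)).card ≤ d := by
    intro φ
    rw [← hd (φ v)]
    refine card_le_card_of_injOn φ ?_ ?_
    · intro u hu
      simp only [coe_inter, coe_filter, mem_univ, true_and, Set.mem_inter_iff,
        Set.mem_setOf_eq] at hu
      simpa using hu.2.2.1
    · intro u hu u' hu' he
      simp only [coe_inter, coe_filter, mem_univ, true_and, Set.mem_inter_iff,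
        Set.mem_setOf_eq] at hu hu'
      exact (rnd_imm R H φ).inj v u u' hu.2 hu'.2 he
  have h1 : ∀ φ : V → W,
      pot (Δ / 2) (1 / (d : ℝ)) (U \ univ.filter (fun u => Cov R H φ v u)).card ≤
        P * (1 - ((U ∩ univ.filter (fun u => Cov R H φ v u)).card : ℝ) / (2 * d)) := by
    intro φ
    have e : (U \ univ.filter (fun u => Cov R H φ v u)).card =
        U.card - (U ∩ univ.filter (fun u => Cov R H φ v u)).card := by
      have := card_sdiff_add_card_inter U (univ.filter (fun u => Cov R H φ v u))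
      omega
    rw [e]
    exact pot_sub _ d hd1 (hy φ) _
  refine (sum_le_sum fun φ _ => h1 φ).trans ?_
  rw [← mul_sum, sum_sub_distrib, sum_const, card_univ, nsmul_eq_mul, mul_one, ← sum_div]
  -- the total number
  have h2 : ∀ φ : V → W, ((U ∩ univ.filter (fun u => Cov R H φ v u)).card : ℝ) =
      ∑ u ∈ U, (if Cov R H φ v u then (1 : ℝ) else 0) := by
    intro φ
    rw [sum_boole]
    congr 2
    ext u
    simp
  have h3 : (U.card : ℝ) * ((Fintype.card (V → W) : ℝ) * d) ≤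
      2 * N * ∑ φ : V → W, ((U ∩ univ.filter (fun u => Cov R H φ v u)).card : ℝ) := by
    simp only [h2]
    rw [sum_comm, mul_sum, ← nsmul_eq_mul, ← sum_const]
    refine sum_le_sum fun u hu => ?_
    have hvu : R.Adj v u := by simpa using hU hu
    exact count_cov R H d Δ hd hR hN hvu
  set Y := ∑ φ : V → W, ((U ∩ univ.filter (fun u => Cov R H φ v u)).card : ℝ) with hY
  set X := (Fintype.card (V → W) : ℝ) with hX
  have hX0 : 0 ≤ X := by rw [hX]; positivity
  have hUΔ : (Δ : ℝ) ≤ 2 * U.card := by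
    have : Δ ≤ 2 * U.card := by omega
    exact_mod_cast this
  have h4 : X * ((Δ : ℝ) / (8 * N)) ≤ Y / (2 * d) := by
    rw [← mul_div_assoc, div_le_div_iff₀ (by positivity) (by positivity)]
    have h5 : (Δ : ℝ) * (X * d) ≤ 2 * U.card * (X * d) :=
      mul_le_mul_of_nonneg_right hUΔ (by positivity)
    nlinarith
  rw [mul_comm _ P]
  refine mul_le_mul_of_nonneg_left ?_ hP0
  rw [mul_sub, mul_one]
  linarith

/-- independent rounds -/
theorem iter {X A : Type} [Fintype X] [DecidableEq A] (c : X → Finset A) (g : Finset A → ℝ)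
    (lam : ℝ) (hlam : 0 ≤ lam) (U0 : Finset A)
    (hstep : ∀ U ⊆ U0, ∑ x, g (U \ c x) ≤ lam * g U) :
    ∀ (T : ℕ) (U : Finset A), U ⊆ U0 →
      ∑ ω : Fin T → X, g (U.filter fun a => ∀ i, a ∉ c (ω i)) ≤ lam ^ T * g U := by
  intro T
  induction T with
  | zero =>
    intro U hU
    simp
  | succ T ih =>
    intro U hU
    rw [← (Fin.consEquiv (fun _ => X)).sum_comp, Fintype.sum_prod_type]
    have e : ∀ (x : X) (ω : Fin T → X),
        (U.filter fun a => ∀ i, a ∉ c ((Fin.consEquiv (fun _ => X)) (x, ω) i)) =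
          (U \ c x).filter fun a => ∀ i, a ∉ c (ω i) := by
      intro x ω
      ext a
      simp only [mem_filter, mem_sdiff, Fin.forall_fin_succ, Fin.consEquiv_apply, Fin.cons_zero,
        Fin.cons_succ, and_assoc]
    simp only [e]
    calc ∑ x, ∑ ω : Fin T → X, g ((U \ c x).filter fun a => ∀ i, a ∉ c (ω i))
        ≤ ∑ x, lam ^ T * g (U \ c x) :=
          sum_le_sum fun x _ => ih _ (sdiff_subset.trans hU)
      _ = lam ^ T * ∑ x, g (U \ c x) := by rw [mul_sum]
      _ ≤ lam ^ T * (lam * g U) := mul_le_mul_of_nonneg_left (hstep U hU) (by positivity)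
      _ = lam ^ (T + 1) * g U := by ring

end

end Pool.Agent.H59.GC
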