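import Pool.Agent.H59.GC.A2

/-!
# One scale: the uncovered degrees are halved
-/

set_option autoImplicit false

open Finset

namespace Pool.Agent.H59.GC

open Pool.Agent.Q266.KM Pool.Agent.Helper635.LLL

section

variable {V W : Type} [Fintype V] [DecidableEq V] [Fintype W] [DecidableEq W]

open Classical in
/-- the neighbours -/
noncomputable def nbr (R : SimpleGraph V) (v : V) : Finset V := univ.filter fun u => R.Adj v u

theorem mem_nbr {R : SimpleGraph V} {v u : V} : u ∈ nbr R v ↔ R.Adj v u := by simp [nbr]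

/-- the ball of radius two -/
noncomputable def ball2 (R : SimpleGraph V) (v : V) : Finset V :=
  insert v (nbr R v ∪ (nbr R v).biUnion (nbr R))

theorem mem_ball2 {R : SimpleGraph V} {v x : V} :
    x ∈ ball2 R v ↔ x = v ∨ R.Adj v x ∨ ∃ u, R.Adj v u ∧ R.Adj u x := by
  simp [ball2, mem_nbr]

theorem ball2_symm {R : SimpleGraph V} {v x : V} (h : x ∈ ball2 R v) : v ∈ ball2 R x := by
  rw [mem_ball2] at h ⊢
  rcases h with h | h | ⟨u, h1, h2⟩
  · exact Or.inl h.symm
  · exact Or.inr (Or.inl h.symm)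
  · exact Or.inr (Or.inr ⟨u, h2.symm, h1.symm⟩)

theorem card_ball2 {R : SimpleGraph V} {Δ : ℕ} (hR : ∀ v, (nbr R v).card ≤ Δ) (v : V) :
    (ball2 R v).card ≤ 1 + Δ + Δ * Δ := by
  refine (card_insert_le _ _).trans ?_
  have h1 := card_union_le (nbr R v) ((nbr R v).biUnion (nbr R))
  have h2 : ((nbr R v).biUnion (nbr R)).card ≤ Δ * Δ :=
    (card_biUnion_le_card_mul _ _ Δ fun u _ => hR u).trans (Nat.mul_le_mul_right _ (hR v))
  have h3 := hR v
  omega

/-- the uncovered neighbours -/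
def unc (R : SimpleGraph V) (H : SimpleGraph W) {T : ℕ} (ω : V → Fin T → W) (v u : V) : Prop :=
  R.Adj v u ∧ ∀ i, ¬ Cov R H (fun x => ω x i) v u

open Classical in
/-- the bad event -/
def Bad (R : SimpleGraph V) (H : SimpleGraph W) (Δ : ℕ) {T : ℕ} (v : V) (ω : V → Fin T → W) :
    Prop :=
  Δ / 2 < (univ.filter fun u => unc R H ω v u).card

theorem cov_congr {R : SimpleGraph V} {H : SimpleGraph W} {φ ψ : V → W} {v : V}
    (h : ∀ x ∈ ball2 R v, φ x = ψ x) {u : V} (hc : Cov R H φ v u) : Cov R H ψ v u := by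
  obtain ⟨h1, h2, h3, h4⟩ := hc
  have hv : φ v = ψ v := h v (mem_ball2.2 (Or.inl rfl))
  have hu : φ u = ψ u := h u (mem_ball2.2 (Or.inr (Or.inl h1)))
  refine ⟨h1, by rw [← hv, ← hu]; exact h2, ?_, ?_⟩
  · intro w hw hwu
    rw [← hu, ← h w (mem_ball2.2 (Or.inr (Or.inl hw)))]
    exact h3 w hw hwu
  · intro w hw hwv
    rw [← hv, ← h w (mem_ball2.2 (Or.inr (Or.inr ⟨u, h1, hw⟩)))]
    exact h4 w hw hwv

theorem bad_dep (R : SimpleGraph V) (H : SimpleGraph W) (Δ : ℕ) {T : ℕ} (v : V) :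
    Pool.Agent.Helper635.LLL.DependsOn (Bad R H Δ (T := T) v) (ball2 R v) := by
  classical
  intro ω ω' h hb
  unfold Bad at hb ⊢
  refine hb.trans_le (card_le_card ?_)
  intro u hu
  rw [mem_filter] at hu ⊢
  refine ⟨mem_univ _, hu.2.1, fun i hc => hu.2.2 i ?_⟩
  exact cov_congr (fun x hx => by rw [h x hx]) hc

open Classical in
/-- the probability of a bad event -/
theorem bad_prob (R : SimpleGraph V) (H : SimpleGraph W) (d Δ T : ℕ) (hd1 : 1 ≤ d)
    (hd : ∀ x, (univ.filter fun y => H.Adj x y).card = d)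
    (hR : ∀ v, (univ.filter fun u => R.Adj v u).card ≤ Δ)
    (hΔ : 1 ≤ Δ) (hN : 4 * Δ ≤ Fintype.card W) (v : V) :
    (cnt (Bad R H Δ (T := T) v) : ℝ) ≤
      (d * (1 - (Δ : ℝ) / (8 * Fintype.card W)) ^ T * Real.exp (Δ / d)) *
        Fintype.card (V → Fin T → W) := by
  have hd0 : (0 : ℝ) < d := by exact_mod_cast hd1
  have hη : (0 : ℝ) ≤ 1 / (d : ℝ) := by positivity
  have hNpos : (0 : ℝ) < Fintype.card W := by
    have : 0 < Fintype.card W := by omega
    exact_mod_cast this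
  have hN4 : 4 * (Δ : ℝ) ≤ Fintype.card W := by exact_mod_cast hN
  set lam := 1 - (Δ : ℝ) / (8 * Fintype.card W) with hlam
  have hlam0 : 0 ≤ lam := by
    rw [hlam, sub_nonneg, div_le_one (by positivity)]
    linarith
  set U0 : Finset V := univ.filter fun u => R.Adj v u with hU0
  have h1 := iter (X := V → W) (A := V) (fun φ => univ.filter fun u => Cov R H φ v u)
    (fun U => pot (Δ / 2) (1 / (d : ℝ)) U.card)
    ((Fintype.card (V → W) : ℝ) * lam) (by positivity) U0
    (fun U hU => step R H d Δ hd1 hd hR hΔ hN v U hU) T U0 subset_rfl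
  -- the counting in the product
  have h2 : (cnt (Bad R H Δ (T := T) v) : ℝ) * (1 / (d : ℝ)) ≤
      ∑ ω : Fin T → (V → W), pot (Δ / 2) (1 / (d : ℝ))
        (U0.filter fun a => ∀ i, a ∉ univ.filter fun u => Cov R H (ω i) v u).card := by
    rw [← (Equiv.piComm (fun (_ : V) (_ : Fin T) => W)).sum_comp]
    unfold cnt
    rw [← nsmul_eq_mul, ← sum_const]
    have h3 : ∀ ω : V → Fin T → W, pot (Δ / 2) (1 / (d : ℝ))
        (U0.filter fun a => ∀ i, a ∉ univ.filter fun u => Cov R H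
          ((Equiv.piComm (fun (_ : V) (_ : Fin T) => W)) ω i) v u).card =
        pot (Δ / 2) (1 / (d : ℝ)) (univ.filter fun u => unc R H ω v u).card := by
      intro ω
      congr 2
      ext u
      simp only [hU0, mem_filter, mem_univ, true_and, unc]
      rfl
    simp only [h3]
    calc ∑ ω ∈ ev (Bad R H Δ (T := T) v), 1 / (d : ℝ)
        ≤ ∑ ω ∈ ev (Bad R H Δ (T := T) v),
            pot (Δ / 2) (1 / (d : ℝ)) (univ.filter fun u => unc R H ω v u).card := by
          refine sum_le_sum fun ω hω => ?_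
          rw [mem_ev] at hω
          exact le_pot hη hω
      _ ≤ _ := sum_le_sum_of_subset_of_nonneg (subset_univ _) fun _ _ _ => pot_nonneg hη _
  have h4 : pot (Δ / 2) (1 / (d : ℝ)) U0.card ≤ Real.exp (Δ / d) := by
    unfold pot
    have h5 : 1 / (d : ℝ) * ((U0.card - Δ / 2 : ℕ) : ℝ) ≤ Δ / d := by
      rw [one_div, inv_mul_eq_div]
      refine div_le_div_of_nonneg_right ?_ hd0.le
      have h0 : U0.card ≤ Δ := hR v
      have : U0.card - Δ / 2 ≤ Δ := by omega
      exact_mod_cast this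
    have := Real.exp_le_exp.2 h5
    linarith
  have h5 : (Fintype.card (V → Fin T → W) : ℝ) = (Fintype.card (V → W) : ℝ) ^ T := by
    rw [Fintype.card_congr (Equiv.piComm (fun (_ : V) (_ : Fin T) => W))]
    simp
  have h6 := h2.trans h1
  rw [mul_pow] at h6
  have h7 : (cnt (Bad R H Δ (T := T) v) : ℝ) =
      d * ((cnt (Bad R H Δ (T := T) v) : ℝ) * (1 / (d : ℝ))) := by
    field_simp
  rw [h7, h5]
  have h8 : (Fintype.card (V → W) : ℝ) ^ T * lam ^ T * pot (Δ / 2) (1 / (d : ℝ)) U0.card ≤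
      (Fintype.card (V → W) : ℝ) ^ T * lam ^ T * Real.exp (Δ / d) :=
    mul_le_mul_of_nonneg_left h4 (by positivity)
  calc (d : ℝ) * ((cnt (Bad R H Δ (T := T) v) : ℝ) * (1 / (d : ℝ)))
      ≤ d * ((Fintype.card (V → W) : ℝ) ^ T * lam ^ T * Real.exp (Δ / d)) :=
        mul_le_mul_of_nonneg_left (h6.trans h8) hd0.le
    _ = _ := by ring

end

section

variable {V W : Type} [Fintype V] [Fintype W]

open Classical in
/-- the local lemma -/
theorem halve_core (R : SimpleGraph V) (H : SimpleGraph W) (d Δ T : ℕ) (hd1 : 1 ≤ d)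
    (hd : ∀ x, (univ.filter fun y => H.Adj x y).card = d)
    (hR : ∀ v, (univ.filter fun u => R.Adj v u).card ≤ Δ)
    (hΔ : 1 ≤ Δ) (hN : 4 * Δ ≤ Fintype.card W)
    (hnum : 4 * (d * (1 - (Δ : ℝ) / (8 * Fintype.card W)) ^ T * Real.exp (Δ / d)) *
      (((1 + Δ + Δ * Δ) * (1 + Δ + Δ * Δ) : ℕ) : ℝ) ≤ 1) :
    ∃ ω : V → Fin T → W, ∀ v, (univ.filter fun u => unc R H ω v u).card ≤ Δ / 2 := by
  have hN4 : 4 * (Δ : ℝ) ≤ Fintype.card W := by exact_mod_cast hN
  have hNpos : (0 : ℝ) < Fintype.card W := by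
    have : 0 < Fintype.card W := by omega
    exact_mod_cast this
  have hlam0 : 0 ≤ 1 - (Δ : ℝ) / (8 * Fintype.card W) := by
    rw [sub_nonneg, div_le_one (by positivity)]
    linarith
  have hW : Nonempty W := Fintype.card_pos_iff.1 (by omega)
  have hR' : ∀ v, (nbr R v).card ≤ Δ := fun v => by
    refine le_trans (le_of_eq ?_) (hR v)
    congr 1
  obtain ⟨ω, hω⟩ := lll (T := V) (C := Fin T → W) (ι := V) univ (fun v => Bad R H Δ (T := T) v)
    (fun v => ball2 R v) (fun v _ => bad_dep R H Δ v)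
    (d * (1 - (Δ : ℝ) / (8 * Fintype.card W)) ^ T * Real.exp (Δ / d))
    ((1 + Δ + Δ * Δ) * (1 + Δ + Δ * Δ)) (by positivity)
    (fun v _ => bad_prob R H d Δ T hd1 hd hR hΔ hN v)
    (by
      intro v _
      refine le_trans (card_le_card (t := (ball2 R v).biUnion (ball2 R)) ?_) ?_
      · intro j hj
        rw [mem_filter, not_disjoint_iff] at hj
        obtain ⟨-, x, hx1, hx2⟩ := hj
        exact mem_biUnion.2 ⟨x, hx1, ball2_symm hx2⟩
      · exact (card_biUnion_le_card_mul _ _ _ fun u _ => card_ball2 hR' u).trans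
          (Nat.mul_le_mul_right _ (card_ball2 hR' v)))
    hnum (Nat.one_le_iff_ne_zero.2 (by positivity)) Fintype.card_pos
  exact ⟨ω, fun v => Nat.not_lt.1 (hω v (mem_univ v))⟩

end

end Pool.Agent.H59.GC
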