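import Pool.Agent.H59.GC.A3
import Pool.Graph.R_pool_sql_team_seeded_2aa45f1a.Q266.KM.Reg

/-!
# From regular graphs to decompositions
-/

set_option autoImplicit false

open Finset

namespace Pool.Agent.H59.GC

open Pool.Agent.Q266.KM

variable {P : (V : Type) → SimpleGraph V → Prop}

/-- disjoint copies -/
def cop {W : Type} (G : SimpleGraph W) (s : ℕ) : SimpleGraph (W × Fin s) where
  Adj x y := G.Adj x.1 y.1 ∧ x.2 = y.2
  symm := ⟨fun _ _ h => ⟨h.1.symm, h.2.symm⟩⟩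
  loopless := ⟨fun _ h => G.irrefl h.1⟩

theorem cop_imm {W : Type} (G : SimpleGraph W) (s : ℕ) : Imm (cop G s) G Prod.fst where
  hom := fun _ _ h => h.1
  inj := fun _ _ _ h h' he => Prod.ext he (h.2.symm.trans h'.2)

open Classical in
theorem cop_deg {W : Type} [Fintype W] (G : SimpleGraph W) (s d : ℕ)
    (hd : ∀ z, (G.neighborSet z).ncard = d) (x : W × Fin s) :
    (univ.filter fun y => (cop G s).Adj x y).card = d := by
  rw [← hd x.1, ← Set.ncard_coe_finset]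
  refine Set.ncard_congr (fun y _ => y.1) ?_ ?_ ?_
  · intro y hy
    simp only [coe_filter, mem_univ, true_and] at hy
    exact hy.1
  · intro y y' hy hy' he
    simp only [coe_filter, mem_univ, true_and] at hy hy'
    exact Prod.ext he (hy.2.symm.trans hy'.2)
  · intro z hz
    refine ⟨(z, x.2), ?_, rfl⟩
    simp only [coe_filter, mem_univ, true_and]
    exact ⟨hz, rfl⟩

open Classical in
/-- the target graphs -/
theorem target (hP : ImmClosed P) {α : ℝ} (hα : 0 < α) (h : RegForm P α) :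
    ∃ C : ℝ, 0 < C ∧ ∀ Δ : ℕ, 1 ≤ Δ → ∃ (W : Type) (_ : Fintype W) (H : SimpleGraph W) (d : ℕ),
      1 ≤ d ∧ (Δ : ℝ) ^ α ≤ d ∧ (d : ℝ) ≤ 2 * (Δ : ℝ) ^ α ∧ 4 * Δ ≤ Fintype.card W ∧
      (Fintype.card W : ℝ) ≤ C * Δ ∧ P W H ∧
      ∀ x, (univ.filter fun y => H.Adj x y).card = d := by
  obtain ⟨C0, hC0⟩ := h
  refine ⟨4 + 2 * (|C0| * 2 ^ (1 / α)), by positivity, ?_⟩
  intro Δ hΔ
  have hΔ1 : (1 : ℝ) ≤ Δ := by exact_mod_cast hΔ
  have hΔα : (1 : ℝ) ≤ (Δ : ℝ) ^ α := Real.one_le_rpow hΔ1 hα.le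
  set d := ⌈(Δ : ℝ) ^ α⌉₊ with hd
  have hd1 : 1 ≤ d := Nat.one_le_ceil_iff.2 (by linarith)
  have hd2 : (Δ : ℝ) ^ α ≤ d := Nat.le_ceil _
  have hd3 : (d : ℝ) ≤ 2 * (Δ : ℝ) ^ α := by
    have := (Nat.ceil_lt_add_one (show (0 : ℝ) ≤ (Δ : ℝ) ^ α by linarith)).le
    rw [← hd] at this
    linarith
  obtain ⟨m, G, hm, hmC, hPG, -, -, hreg⟩ := hC0 d hd1
  have hm0 : (0 : ℝ) < m := by exact_mod_cast hm
  have hm2 : (m : ℝ) ≤ |C0| * 2 ^ (1 / α) * Δ := by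
    have e : (2 * (Δ : ℝ) ^ α) ^ (1 / α) = 2 ^ (1 / α) * Δ := by
      rw [Real.mul_rpow (by norm_num) (by positivity), ← Real.rpow_mul (by positivity),
        mul_one_div_cancel hα.ne', Real.rpow_one]
    calc (m : ℝ) ≤ C0 * (d : ℝ) ^ (1 / α) := hmC
      _ ≤ |C0| * (d : ℝ) ^ (1 / α) :=
          mul_le_mul_of_nonneg_right (le_abs_self _) (by positivity)
      _ ≤ |C0| * (2 * (Δ : ℝ) ^ α) ^ (1 / α) :=
          mul_le_mul_of_nonneg_left (Real.rpow_le_rpow (by positivity) hd3 (by positivity))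
            (abs_nonneg _)
      _ = _ := by rw [e]; ring
  -- the number of copies
  set s := (2 * Δ + m - 1) / m with hs
  have hs1 : 2 * Δ ≤ m * s := by
    rw [hs]
    have := Nat.div_add_mod (2 * Δ + m - 1) m
    have := Nat.mod_lt (2 * Δ + m - 1) hm
    omega
  have hs2 : m * s ≤ 2 * Δ + m := by
    rw [hs]
    have := Nat.mul_div_le (2 * Δ + m - 1) m
    omega
  have hcard : Fintype.card ((Fin m ⊕ Fin m) × Fin s) = 2 * (m * s) := by
    rw [Fintype.card_prod, Fintype.card_sum, Fintype.card_fin, Fintype.card_fin]; ring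
  refine ⟨(Fin m ⊕ Fin m) × Fin s, inferInstance, cop G s, d, hd1, hd2, hd3, ?_, ?_,
    hP _ _ _ _ _ (cop_imm G s) hPG, cop_deg G s d hreg⟩
  · rw [hcard]; omega
  · rw [hcard]
    have h3 : ((m * s : ℕ) : ℝ) ≤ 2 * Δ + m := by exact_mod_cast hs2
    push_cast at h3 ⊢
    nlinarith

/-- the numerical condition of the local lemma -/
theorem numeric {C : ℝ} (hC : 0 < C) {α : ℝ} (hα : 0 < α) (hα1 : α < 1) (Δ d N T : ℕ)
    (hΔ : 1 ≤ Δ) (hd2 : (Δ : ℝ) ^ α ≤ d) (hd3 : (d : ℝ) ≤ 2 * (Δ : ℝ) ^ α)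
    (hN : 4 * Δ ≤ N) (hNC : (N : ℝ) ≤ C * Δ)
    (hT : 8 * C * (6 + 5 / (1 - α)) * (Δ : ℝ) ^ (1 - α) ≤ T) :
    4 * (d * (1 - (Δ : ℝ) / (8 * N)) ^ T * Real.exp (Δ / d)) *
      (((1 + Δ + Δ * Δ) * (1 + Δ + Δ * Δ) : ℕ) : ℝ) ≤ 1 := by
  have hΔ1 : (1 : ℝ) ≤ Δ := by exact_mod_cast hΔ
  have hβ : 0 < 1 - α := by linarith
  set x := (Δ : ℝ) ^ (1 - α) with hx
  have hx1 : 1 ≤ x := Real.one_le_rpow hΔ1 hβ.le
  have hΔα : (1 : ℝ) ≤ (Δ : ℝ) ^ α := Real.one_le_rpow hΔ1 hα.le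
  have hΔα1 : (Δ : ℝ) ^ α ≤ Δ := by
    have := Real.rpow_le_rpow_of_exponent_le hΔ1 hα1.le
    rwa [Real.rpow_one] at this
  have hd0 : (0 : ℝ) < d := by linarith
  have hN0 : (0 : ℝ) < N := by
    have : 0 < N := by omega
    exact_mod_cast this
  have hN4 : 4 * (Δ : ℝ) ≤ N := by exact_mod_cast hN
  -- the power
  have h1 : (1 - (Δ : ℝ) / (8 * N)) ^ T ≤ Real.exp (-((6 + 5 / (1 - α)) * x)) := by
    have h2 : 1 - (Δ : ℝ) / (8 * N) ≤ Real.exp (-(1 / (8 * C))) := by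
      have h3 : 1 / (8 * C) ≤ (Δ : ℝ) / (8 * N) := by
        rw [div_le_div_iff₀ (by positivity) (by positivity)]
        nlinarith
      have h4 := Real.add_one_le_exp (-(1 / (8 * C)))
      linarith
    have h0 : 0 ≤ 1 - (Δ : ℝ) / (8 * N) := by
      rw [sub_nonneg, div_le_one (by positivity)]
      linarith
    refine (pow_le_pow_left₀ h0 h2 T).trans ?_
    rw [← Real.exp_nat_mul]
    apply Real.exp_le_exp.2
    have h5 : (6 + 5 / (1 - α)) * x ≤ T * (1 / (8 * C)) := by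
      rw [mul_one_div, le_div_iff₀ (by positivity)]
      nlinarith
    linarith
  have h2 : Real.exp (Δ / d) ≤ Real.exp x := by
    apply Real.exp_le_exp.2
    rw [div_le_iff₀ hd0]
    have : (Δ : ℝ) = x * (Δ : ℝ) ^ α := by
      rw [hx, ← Real.rpow_add (by linarith), sub_add_cancel, Real.rpow_one]
    calc (Δ : ℝ) = x * (Δ : ℝ) ^ α := this
      _ ≤ x * d := mul_le_mul_of_nonneg_left hd2 (by linarith)
  have h3 : 4 * (d : ℝ) * (((1 + Δ + Δ * Δ) * (1 + Δ + Δ * Δ) : ℕ) : ℝ) ≤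
      Real.exp (5 * x + 5 / (1 - α) * x) := by
    have h4 : (((1 + Δ + Δ * Δ) * (1 + Δ + Δ * Δ) : ℕ) : ℝ) ≤ (3 * (Δ : ℝ) ^ 2) ^ 2 := by
      push_cast
      have : 1 + (Δ : ℝ) + Δ * Δ ≤ 3 * (Δ : ℝ) ^ 2 := by nlinarith
      have h0 : 0 ≤ 1 + (Δ : ℝ) + Δ * Δ := by positivity
      nlinarith
    have h5 : (d : ℝ) ≤ 2 * Δ := by linarith
    have h6 : 4 * (d : ℝ) * (((1 + Δ + Δ * Δ) * (1 + Δ + Δ * Δ) : ℕ) : ℝ) ≤ 72 * (Δ : ℝ) ^ 5 := by
      calc 4 * (d : ℝ) * (((1 + Δ + Δ * Δ) * (1 + Δ + Δ * Δ) : ℕ) : ℝ)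
          ≤ 4 * (2 * (Δ : ℝ)) * (3 * (Δ : ℝ) ^ 2) ^ 2 := by gcongr
        _ = _ := by ring
    have h7 : (72 : ℝ) ≤ Real.exp 5 := by
      have e : Real.exp 5 = Real.exp 1 ^ 5 := by rw [← Real.exp_nat_mul]; norm_num
      rw [e]
      have := Real.exp_one_gt_d9
      calc (72 : ℝ) ≤ 2.7 ^ 5 := by norm_num
        _ ≤ Real.exp 1 ^ 5 := by
          apply pow_le_pow_left₀ (by norm_num)
          linarith
    have h8 : (Δ : ℝ) ^ 5 = Real.exp (5 * Real.log Δ) := by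
      have : Real.exp (5 * Real.log Δ) = Real.exp (Real.log Δ) ^ 5 := by
        rw [← Real.exp_nat_mul]; norm_num
      rw [this, Real.exp_log (by linarith)]
    have h9 : Real.log Δ ≤ x / (1 - α) := Real.log_le_rpow_div (by linarith) hβ
    refine h6.trans ?_
    rw [h8]
    calc 72 * Real.exp (5 * Real.log Δ) ≤ Real.exp 5 * Real.exp (5 * Real.log Δ) :=
          mul_le_mul_of_nonneg_right h7 (Real.exp_pos _).le
      _ = Real.exp (5 + 5 * Real.log Δ) := by rw [Real.exp_add]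
      _ ≤ _ := by
        apply Real.exp_le_exp.2
        have : 5 / (1 - α) * x = 5 * (x / (1 - α)) := by ring
        rw [this]
        linarith
  have h0 : 0 ≤ (1 - (Δ : ℝ) / (8 * N)) ^ T := by
    apply pow_nonneg
    rw [sub_nonneg, div_le_one (by positivity)]
    linarith
  calc 4 * (d * (1 - (Δ : ℝ) / (8 * N)) ^ T * Real.exp (Δ / d)) *
        (((1 + Δ + Δ * Δ) * (1 + Δ + Δ * Δ) : ℕ) : ℝ)
      = (4 * (d : ℝ) * (((1 + Δ + Δ * Δ) * (1 + Δ + Δ * Δ) : ℕ) : ℝ)) *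
          (1 - (Δ : ℝ) / (8 * N)) ^ T * Real.exp (Δ / d) := by ring
    _ ≤ Real.exp (5 * x + 5 / (1 - α) * x) * Real.exp (-((6 + 5 / (1 - α)) * x)) *
          Real.exp x := by gcongr
    _ = Real.exp 0 := by
        rw [← Real.exp_add, ← Real.exp_add]; congr 1; ring
    _ = 1 := Real.exp_zero

end Pool.Agent.H59.GC
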