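import Pool.Agent.H59.GC.A4

/-!
# Decomposition of graphs of bounded degree
-/

set_option autoImplicit false

open Finset

namespace Pool.Agent.H59.GC

open Pool.Agent.Q266.KM

variable {P : (V : Type) → SimpleGraph V → Prop}

/-- one scale -/
theorem halve (hP : ImmClosed P) {α : ℝ} (hα : 0 < α) (hα1 : α < 1) (h : RegForm P α) :
    ∃ C : ℝ, 0 < C ∧ ∀ Δ : ℕ, 1 ≤ Δ → ∀ (V : Type) [Finite V] (R : SimpleGraph V),
      (∀ v, (R.neighborSet v).ncard ≤ Δ) → ∃ (T : ℕ) (F : Fin T → SimpleGraph V),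
        (T : ℝ) ≤ C * (Δ : ℝ) ^ (1 - α) ∧
        (∀ i, F i ≤ R ∧ P V (F i) ∧
          ∀ v, (((F i).neighborSet v).ncard : ℝ) ≤ 2 * (Δ : ℝ) ^ α) ∧
        ∀ v, {u | R.Adj v u ∧ ∀ i, ¬ (F i).Adj v u}.ncard ≤ Δ / 2 := by
  classical
  obtain ⟨C, hC, ht⟩ := target hP hα h
  refine ⟨8 * C * (6 + 5 / (1 - α)) + 1, ?_, ?_⟩
  · have : 0 < 1 - α := by linarith
    positivity
  intro Δ hΔ V _ R hR
  haveI : Fintype V := Fintype.ofFinite V
  obtain ⟨W, iW, H, d, hd1, hd2, hd3, hN, hNC, hPH, hdeg⟩ := ht Δ hΔ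
  have hΔ1 : (1 : ℝ) ≤ Δ := by exact_mod_cast hΔ
  have hβ : 0 < 1 - α := by linarith
  have hx1 : (1 : ℝ) ≤ (Δ : ℝ) ^ (1 - α) := Real.one_le_rpow hΔ1 hβ.le
  set T := ⌈8 * C * (6 + 5 / (1 - α)) * (Δ : ℝ) ^ (1 - α)⌉₊ with hT
  have hT1 : 8 * C * (6 + 5 / (1 - α)) * (Δ : ℝ) ^ (1 - α) ≤ T := Nat.le_ceil _
  have hT2 : (T : ℝ) ≤ (8 * C * (6 + 5 / (1 - α)) + 1) * (Δ : ℝ) ^ (1 - α) := by
    have h0 : 0 ≤ 8 * C * (6 + 5 / (1 - α)) * (Δ : ℝ) ^ (1 - α) := by positivity
    have := (Nat.ceil_lt_add_one h0).le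
    rw [← hT] at this
    nlinarith
  have hnum := numeric hC hα hα1 Δ d (Fintype.card W) T hΔ hd2 hd3 hN hNC hT1
  have hRc : ∀ v, (univ.filter fun u => R.Adj v u).card ≤ Δ := by
    intro v
    refine le_trans (le_of_eq ?_) (hR v)
    rw [← Set.ncard_coe_finset]
    congr 1
    ext u
    simp
  obtain ⟨ω, hω⟩ := halve_core R H d Δ T hd1 hdeg hRc hΔ hN hnum
  refine ⟨T, fun i => rnd R H (fun x => ω x i), hT2, ?_, ?_⟩
  · intro i
    refine ⟨rnd_le _ _ _, hP _ _ _ _ _ (rnd_imm R H _) hPH, fun v => ?_⟩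
    refine le_trans ?_ hd3
    have := Imm.deg_le (rnd_imm R H (fun x => ω x i)) (d := d) (fun x => by
      refine le_of_eq ?_
      rw [← hdeg x, ← Set.ncard_coe_finset]
      congr 1
      ext u
      simp) (fun x => Set.toFinite _) v
    exact_mod_cast this
  · intro v
    refine le_trans (le_of_eq ?_) (hω v)
    rw [← Set.ncard_coe_finset]
    congr 1
    ext u
    simp only [coe_filter, mem_univ, true_and, unc]
    rfl

/-- `R` is a union of at most `K` graphs of the class with maximum degree at most `D` -/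
def Cover (P : (V : Type) → SimpleGraph V → Prop) {V : Type} (R : SimpleGraph V) (K D : ℝ) :
    Prop :=
  ∃ (k : ℕ) (F : Fin k → SimpleGraph V), (k : ℝ) ≤ K ∧
    (∀ i, F i ≤ R ∧ P V (F i) ∧ ∀ v, (((F i).neighborSet v).ncard : ℝ) ≤ D) ∧
    ∀ u v, R.Adj u v → ∃ i, (F i).Adj u v

/-- the decomposition -/
theorem cover (hP : ImmClosed P) {α : ℝ} (hα : 0 < α) (hα1 : α < 1) (h : RegForm P α) :
    ∃ C : ℝ, 0 < C ∧ ∀ (Δ : ℕ) (V : Type) [Finite V] (R : SimpleGraph V),
      (∀ v, (R.neighborSet v).ncard ≤ Δ) →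
        Cover P R (C * (Δ : ℝ) ^ (1 - α)) (2 * (Δ : ℝ) ^ α) := by
  classical
  obtain ⟨C, hC, hh⟩ := halve hP hα hα1 h
  have hβ : 0 < 1 - α := by linarith
  set r : ℝ := (1 / 2 : ℝ) ^ (1 - α) with hr
  have hr1 : r < 1 := Real.rpow_lt_one (by norm_num) (by norm_num) hβ
  have hr0 : 0 < r := Real.rpow_pos_of_pos (by norm_num) _
  set C' := C / (1 - r) with hC'
  have hC'0 : 0 < C' := div_pos hC (by linarith)
  have hCC : C + C' * r = C' := by
    rw [hC']
    have : 1 - r ≠ 0 := by linarith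
    field_simp
    ring
  refine ⟨C', hC'0, ?_⟩
  intro Δ
  induction Δ using Nat.strong_induction_on with
  | _ Δ ih =>
    intro V _ R hR
    rcases Nat.eq_zero_or_pos Δ with h0 | hpos
    · refine ⟨0, Fin.elim0, by rw [Nat.cast_zero]; positivity, fun i => i.elim0, ?_⟩
      intro u v huv
      exfalso
      have h1 := hR u
      rw [h0, Nat.le_zero, Set.ncard_eq_zero (Set.toFinite _)] at h1
      have : v ∈ R.neighborSet u := huv
      rw [h1] at this
      exact this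
    · obtain ⟨T, F, hT, hF, hun⟩ := hh Δ hpos V R hR
      set R' : SimpleGraph V :=
        { Adj := fun v u => R.Adj v u ∧ ∀ i, ¬ (F i).Adj v u
          symm := ⟨fun v u h => ⟨h.1.symm, fun i hi => h.2 i hi.symm⟩⟩
          loopless := ⟨fun v h => R.irrefl h.1⟩ } with hR'
      obtain ⟨k, F', hk, hF', hcov⟩ := ih (Δ / 2) (Nat.div_lt_self hpos (by norm_num)) V R'
        (fun v => hun v)
      have hhalf : ((Δ / 2 : ℕ) : ℝ) ≤ (Δ : ℝ) * (1 / 2) := by
        have := Nat.cast_div_le (α := ℝ) (m := Δ) (n := 2)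
        push_cast at this
        linarith
      have hΔ0 : (0 : ℝ) ≤ Δ := by positivity
      refine ⟨T + k, Fin.append F F', ?_, ?_, ?_⟩
      · push_cast
        have h1 : ((Δ / 2 : ℕ) : ℝ) ^ (1 - α) ≤ (Δ : ℝ) ^ (1 - α) * r := by
          rw [hr, ← Real.mul_rpow hΔ0 (by norm_num)]
          exact Real.rpow_le_rpow (by positivity) hhalf hβ.le
        have h2 := mul_le_mul_of_nonneg_left h1 hC'0.le
        calc (T : ℝ) + k ≤ C * (Δ : ℝ) ^ (1 - α) + C' * ((Δ : ℝ) ^ (1 - α) * r) := by linarith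
          _ = (C + C' * r) * (Δ : ℝ) ^ (1 - α) := by ring
          _ = _ := by rw [hCC]
      · intro i
        refine Fin.addCases (fun j => ?_) (fun j => ?_) i
        · rw [Fin.append_left]
          exact hF j
        · rw [Fin.append_right]
          refine ⟨(hF' j).1.trans fun u v h => h.1, (hF' j).2.1, fun v => ?_⟩
          refine ((hF' j).2.2 v).trans ?_
          have : ((Δ / 2 : ℕ) : ℝ) ^ α ≤ (Δ : ℝ) ^ α :=
            Real.rpow_le_rpow (by positivity) (by linarith) hα.le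
          linarith
      · intro u v huv
        by_cases hc : ∃ i, (F i).Adj u v
        · obtain ⟨i, hi⟩ := hc
          exact ⟨Fin.castAdd k i, by rw [Fin.append_left]; exact hi⟩
        · push Not at hc
          obtain ⟨j, hj⟩ := hcov u v ⟨huv, hc⟩
          exact ⟨Fin.natAdd T j, by rw [Fin.append_right]; exact hj⟩

end Pool.Agent.H59.GC
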