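import Pool.Agent.H59.GC.A5
import Pool.Graph.R_seed8.TH815.GR12

/-!
# Girth and locally injective homomorphisms
-/

set_option autoImplicit false

open Finset

namespace Pool.Agent.H59.GC

open Pool.Agent.Q266.KM Pool.Agent.H268R2.LB

/-- the class of the graphs of girth greater than `2 m` -/
def GirthGT (m : ℕ) : (V : Type) → SimpleGraph V → Prop :=
  fun _ G => ((2 * m : ℕ) : ℕ∞) < G.egirth

theorem immClosed_girth (m : ℕ) : ImmClosed (GirthGT m) := by
  intro V W G H f hf hH
  unfold GirthGT at hH ⊢
  rw [Pool.TH815.GR.egirth_iff] at hH ⊢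
  intro v p hp
  by_contra hlt
  push Not at hlt
  have h3 := hp.three_le_length
  have hinj := hp.getVert_injOn
  have hA : ∀ i < p.length, G.Adj (p.getVert i) (p.getVert (i + 1)) :=
    fun i hi => p.adj_getVert_succ hi
  have hN : ∀ i, i + 2 ≤ p.length → p.getVert i ≠ p.getVert (i + 2) := by
    intro i hi he
    rcases Nat.eq_zero_or_pos i with h0 | hpos
    · subst h0
      rw [SimpleGraph.Walk.getVert_zero] at he
      have h1 : p.getVert p.length = p.getVert (0 + 2) := by
        rw [SimpleGraph.Walk.getVert_length]; exact he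
      have := hinj ⟨by omega, le_rfl⟩ ⟨by omega, by omega⟩ h1
      omega
    · have := hinj ⟨hpos, by omega⟩ ⟨by omega, by omega⟩ he
      omega
  have hw := NW.of_fun (G := H) (n := p.length) (x := fun i => f (p.getVert i))
    (fun i hi => hf.hom _ _ (hA i hi))
    (fun i hi he => hN i hi (hf.inj (p.getVert (i + 1)) _ _ (hA i (by omega)).symm
      (hA (i + 1) (by omega)) he)) (i := 0) (j := p.length) (by omega) le_rfl
  simp only [SimpleGraph.Walk.getVert_length, SimpleGraph.Walk.getVert_zero, Nat.sub_zero] at hw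
  exact no_closed hH hw hlt

/-- subgraphs -/
theorem imm_of_le {V : Type} {G H : SimpleGraph V} (h : G ≤ H) : Imm G H id where
  hom := fun _ _ hh => h hh
  inj := fun _ _ _ _ _ he => he

theorem girth_mono {m : ℕ} {V : Type} {G H : SimpleGraph V} (h : G ≤ H) (hH : GirthGT m V H) :
    GirthGT m V G :=
  immClosed_girth m V V G H id (imm_of_le h) hH

end Pool.Agent.H59.GC
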