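import Pool.Agent.H59.GC.A6

/-!
# The local form for finite graphs
-/

set_option autoImplicit false

open Finset

namespace Pool.Agent.H59.GC

open Pool.Agent.Q266.KM

variable {P : (V : Type) → SimpleGraph V → Prop}

/-- the number of neighbours -/
noncomputable def deg {V : Type} (R : SimpleGraph V) (v : V) : ℕ := (R.neighborSet v).ncard

/-- the edges of level `j` -/
def level {V : Type} (R : SimpleGraph V) (j : ℕ) : SimpleGraph V where
  Adj u v := R.Adj u v ∧ Nat.log 2 (max (deg R u) (deg R v)) = j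
  symm := ⟨fun u v h => ⟨h.1.symm, by rw [max_comm]; exact h.2⟩⟩
  loopless := ⟨fun v h => R.irrefl h.1⟩

theorem level_deg {V : Type} [Finite V] (R : SimpleGraph V) (j : ℕ) (u : V) :
    ((level R j).neighborSet u).ncard ≤ 2 ^ (j + 1) := by
  rcases Set.eq_empty_or_nonempty ((level R j).neighborSet u) with h0 | ⟨v, hv⟩
  · rw [h0, Set.ncard_empty]; exact Nat.zero_le _
  · have h1 : ((level R j).neighborSet u).ncard ≤ deg R u :=
      Set.ncard_le_ncard (fun w hw => hw.1) (Set.toFinite _)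
    have h2 : max (deg R u) (deg R v) < 2 ^ (j + 1) := by
      have := hv.2
      rw [← this]
      exact Nat.lt_pow_succ_log_self (by norm_num) _
    have h3 := le_max_left (deg R u) (deg R v)
    omega

/-- palettes -/
theorem palette {V : Type} (b k : ℕ → ℕ) (hkb : ∀ j, k j ≤ b j)
    (F : (j : ℕ) → Fin (k j) → SimpleGraph V) (Q : SimpleGraph V → Prop)
    (h : ∀ j i, Q (F j i)) (hbot : Q ⊥) :
    ∃ G : ℕ → SimpleGraph V, (∀ t, Q (G t)) ∧
      ∀ j (i : Fin (k j)), F j i ≤ G (∑ l ∈ range j, b l + i) := by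
  have key : ∀ t : ℕ, ∃ Gt : SimpleGraph V, Q Gt ∧
      ∀ j (i : Fin (k j)), t = ∑ l ∈ range j, b l + i → F j i ≤ Gt := by
    intro t
    by_cases hex : ∃ (j : ℕ) (i : Fin (k j)), t = ∑ l ∈ range j, b l + i
    · obtain ⟨j, i, hji⟩ := hex
      refine ⟨F j i, h j i, ?_⟩
      intro j' i' hji'
      have mono : ∀ a c : ℕ, a < c → ∀ i : Fin (k a),
          ∑ l ∈ range a, b l + (i : ℕ) < ∑ l ∈ range c, b l := by
        intro a c hac i
        have h1 : ∑ l ∈ range (a + 1), b l ≤ ∑ l ∈ range c, b l :=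
          sum_le_sum_of_subset (range_subset_range.2 hac)
        rw [sum_range_succ] at h1
        have h2 := i.2
        have h3 := hkb a
        omega
      have hj : j = j' := by
        rcases lt_trichotomy j j' with hlt | heq | hgt
        · have := mono j j' hlt i
          omega
        · exact heq
        · have := mono j' j hgt i'
          omega
      subst hj
      have hi : i = i' := Fin.ext (by omega)
      rw [hi]
    · refine ⟨⊥, hbot, ?_⟩
      intro j i hji
      exact absurd ⟨j, i, hji⟩ hex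
  choose G hG hG' using key
  exact ⟨G, hG, fun j i => hG' _ j i rfl⟩

/-- the degrees of `F` at the ends of its edges are at most `D` times the power `α` of the
larger degree of the ends in `R` -/
def LD {V : Type} (α D : ℝ) (R F : SimpleGraph V) : Prop :=
  ∀ u v, F.Adj u v →
    ((F.neighborSet v).ncard : ℝ) ≤ D * ((max (deg R u) (deg R v) : ℕ) : ℝ) ^ α

/-- the local form for finite graphs -/
theorem local_cover (hP : ImmClosed P) {α : ℝ} (hα : 0 < α) (hα1 : α < 1) (h : RegForm P α) :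
    ∃ C : ℝ, 0 < C ∧ ∀ (V : Type) [Finite V] (R : SimpleGraph V),
      ∃ F : ℕ → SimpleGraph V, (∀ i, F i ≤ R ∧ P V (F i) ∧ LD α 4 R (F i)) ∧
        ∀ u v, R.Adj u v → ∃ i : ℕ, (F i).Adj u v ∧
          (i : ℝ) < C * ((max (deg R u) (deg R v) : ℕ) : ℝ) ^ (1 - α) := by
  classical
  obtain ⟨C, hC, hcov⟩ := cover hP hα hα1 h
  have hβ : 0 < 1 - α := by linarith
  set q : ℝ := (2 : ℝ) ^ (1 - α) with hq
  have hq1 : 1 < q := Real.one_lt_rpow (by norm_num) hβ
  refine ⟨C * q * q / (q - 1), by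
    have : 0 < q - 1 := by linarith
    positivity, ?_⟩
  intro V _ R
  have hpow : ∀ j : ℕ, ((2 ^ j : ℕ) : ℝ) ^ (1 - α) = q ^ j := by
    intro j
    rw [hq]
    push_cast
    rw [← Real.rpow_natCast, ← Real.rpow_mul (by norm_num), ← Real.rpow_natCast,
      ← Real.rpow_mul (by norm_num), mul_comm]
  have hc : ∀ j : ℕ, Cover P (level R j) (C * ((2 ^ (j + 1) : ℕ) : ℝ) ^ (1 - α))
      (2 * ((2 ^ (j + 1) : ℕ) : ℝ) ^ α) := fun j => hcov _ V (level R j) (level_deg R j)
  choose k F hk hF hFc using hc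
  set b : ℕ → ℕ := fun j => ⌊C * q ^ (j + 1)⌋₊ with hb
  have hkb : ∀ j, k j ≤ b j := by
    intro j
    have := hk j
    rw [hpow] at this
    exact Nat.le_floor this
  have hbot : P V ⊥ := by
    obtain ⟨C0, hC0⟩ := h
    obtain ⟨m, G, hm, -, hPG, -, -, -⟩ := hC0 1 le_rfl
    refine hP V _ ⊥ G (fun _ => Sum.inl ⟨0, hm⟩) ⟨fun u v h => absurd h (by simp), ?_⟩ hPG
    intro v u u' h
    exact absurd h (by simp)
  obtain ⟨G, hG, hG'⟩ := palette b k hkb F (fun F => F ≤ R ∧ P V F ∧ LD α 4 R F)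
    (fun j i => ⟨(hF j i).1.trans fun u v h => h.1, (hF j i).2.1, by
      intro u v huv
      refine ((hF j i).2.2 v).trans ?_
      have hl := ((hF j i).1 huv).2
      have hmax : 1 ≤ max (deg R u) (deg R v) := by
        refine le_trans ?_ (le_max_left _ _)
        have : 0 < (R.neighborSet u).ncard :=
          (Set.ncard_pos (Set.toFinite _)).2 ⟨v, ((hF j i).1 huv).1⟩
        exact this
      have hlog : 2 ^ j ≤ max (deg R u) (deg R v) := by
        rw [← hl]; exact Nat.pow_log_le_self 2 (by omega)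
      have h1 : ((2 ^ (j + 1) : ℕ) : ℝ) ^ α ≤ 2 * ((2 ^ j : ℕ) : ℝ) ^ α := by
        rw [pow_succ, Nat.cast_mul, Real.mul_rpow (by positivity) (by norm_num), mul_comm]
        refine mul_le_mul_of_nonneg_right ?_ (by positivity)
        calc ((2 : ℕ) : ℝ) ^ α ≤ ((2 : ℕ) : ℝ) ^ (1 : ℝ) :=
              Real.rpow_le_rpow_of_exponent_le (by norm_num) hα1.le
          _ = 2 := by norm_num
      have h2 : ((2 ^ j : ℕ) : ℝ) ^ α ≤ ((max (deg R u) (deg R v) : ℕ) : ℝ) ^ α :=
        Real.rpow_le_rpow (by positivity) (by exact_mod_cast hlog) hα.le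
      linarith⟩) ⟨bot_le, hbot, fun u v huv => absurd huv (by simp)⟩
  refine ⟨G, hG, ?_⟩
  intro u v huv
  set j := Nat.log 2 (max (deg R u) (deg R v)) with hj
  obtain ⟨i, hi⟩ := hFc j u v ⟨huv, hj.symm⟩
  refine ⟨∑ l ∈ range j, b l + i, hG' j i hi, ?_⟩
  have hmax : 1 ≤ max (deg R u) (deg R v) := by
    refine le_trans ?_ (le_max_left _ _)
    have : 0 < (R.neighborSet u).ncard := (Set.ncard_pos (Set.toFinite _)).2 ⟨v, huv⟩
    exact this
  have hlog : 2 ^ j ≤ max (deg R u) (deg R v) := Nat.pow_log_le_self 2 (by omega)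
  -- the sum
  have h1 : ((∑ l ∈ range j, b l + i : ℕ) : ℝ) < ∑ l ∈ range (j + 1), C * q ^ (l + 1) := by
    have h2 : ((∑ l ∈ range j, b l : ℕ) : ℝ) ≤ ∑ l ∈ range j, C * q ^ (l + 1) := by
      push_cast
      refine sum_le_sum fun l _ => ?_
      exact Nat.floor_le (by positivity)
    have h3 : ((i : ℕ) : ℝ) < C * q ^ (j + 1) := by
      have h4 : (i : ℕ) < b j := lt_of_lt_of_le i.2 (hkb j)
      have h5 : ((b j : ℕ) : ℝ) ≤ C * q ^ (j + 1) := Nat.floor_le (by positivity)
      have h6 : ((i : ℕ) : ℝ) < (b j : ℝ) := by exact_mod_cast h4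
      linarith
    rw [sum_range_succ]
    push_cast at h2 ⊢
    linarith
  have h2 : ∑ l ∈ range (j + 1), C * q ^ (l + 1) = C * q * ((q ^ (j + 1) - 1) / (q - 1)) := by
    rw [← geom_sum_eq hq1.ne', mul_sum]
    refine sum_congr rfl fun l _ => ?_
    ring
  rw [h2] at h1
  refine h1.trans_le ?_
  have h3 : C * q * ((q ^ (j + 1) - 1) / (q - 1)) ≤ C * q * (q ^ (j + 1) / (q - 1)) := by
    have : 0 < q - 1 := by linarith
    gcongr
    linarith
  refine h3.trans ?_
  have h4 : q ^ j ≤ ((max (deg R u) (deg R v) : ℕ) : ℝ) ^ (1 - α) := by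
    rw [← hpow]
    refine Real.rpow_le_rpow (by positivity) ?_ hβ.le
    exact_mod_cast hlog
  calc C * q * (q ^ (j + 1) / (q - 1)) = C * q * q / (q - 1) * q ^ j := by
        rw [pow_succ]; ring
    _ ≤ _ := by
        have : 0 < q - 1 := by linarith
        exact mul_le_mul_of_nonneg_left h4 (by positivity)

end Pool.Agent.H59.GC
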