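import Pool.Agent.H59.GC.A7

/-!
# The local form for all locally finite graphs, by compactness
-/

set_option autoImplicit false

open Finset

namespace Pool.Agent.H59.GC

open Pool.Agent.Q266.KM

theorem girth_bot (m : ℕ) (V : Type) : GirthGT m V ⊥ := by
  unfold GirthGT
  rw [SimpleGraph.egirth_bot]
  exact ENat.natCast_lt_top _

section

variable {V : Type} (G : SimpleGraph V)

/-- the larger degree of the ends -/
noncomputable def wt : Sym2 V → ℕ := Sym2.lift ⟨fun u v => max (deg G u) (deg G v),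
  fun _ _ => max_comm _ _⟩

theorem wt_mk (u v : V) : wt G s(u, v) = max (deg G u) (deg G v) := rfl

/-- the edges of colour `i` in `S` -/
def cls {N : G.edgeSet → ℕ} (x : (e : G.edgeSet) → Fin (N e)) (S : Finset V) (i : ℕ) :
    SimpleGraph V where
  Adj u v := u ∈ S ∧ v ∈ S ∧ ∃ h : G.Adj u v, (x ⟨s(u, v), h⟩ : ℕ) = i
  symm := ⟨by
    rintro u v ⟨h1, h2, h3, h4⟩
    refine ⟨h2, h1, h3.symm, ?_⟩
    have e : (⟨s(v, u), h3.symm⟩ : G.edgeSet) = ⟨s(u, v), h3⟩ := Subtype.ext Sym2.eq_swap
    rw [e]; exact h4⟩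
  loopless := ⟨fun v h => G.irrefl h.2.2.1⟩

variable {G}

theorem cls_mono {N : G.edgeSet → ℕ} (x : (e : G.edgeSet) → Fin (N e)) {S S' : Finset V}
    (h : S ⊆ S') (i : ℕ) : cls G x S i ≤ cls G x S' i :=
  fun _ _ hh => ⟨h hh.1, h hh.2.1, hh.2.2⟩

theorem cls_congr {N : G.edgeSet → ℕ} {x y : (e : G.edgeSet) → Fin (N e)} {S : Finset V}
    (h : ∀ e : G.edgeSet, (∀ v ∈ e.1, v ∈ S) → y e = x e) (i : ℕ) :
    cls G y S i = cls G x S i := by
  ext u v
  constructor
  · rintro ⟨h1, h2, h3, h4⟩
    refine ⟨h1, h2, h3, ?_⟩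
    rw [← h ⟨s(u, v), h3⟩ (by
      intro w hw
      rcases Sym2.mem_iff.1 hw with rfl | rfl
      · exact h1
      · exact h2)]
    exact h4
  · rintro ⟨h1, h2, h3, h4⟩
    refine ⟨h1, h2, h3, ?_⟩
    rw [h ⟨s(u, v), h3⟩ (by
      intro w hw
      rcases Sym2.mem_iff.1 hw with rfl | rfl
      · exact h1
      · exact h2)]
    exact h4

theorem closed_good (Q : SimpleGraph V → Prop) {N : G.edgeSet → ℕ} (S : Finset V) :
    IsClosed {x : (e : G.edgeSet) → Fin (N e) | ∀ i, Q (cls G x S i)} := by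
  rw [← isOpen_compl_iff, isOpen_iff_forall_mem_open]
  intro x hx
  have hfin : {e : G.edgeSet | ∀ v ∈ e.1, v ∈ S}.Finite := by
    refine Set.Finite.of_finite_image (f := Subtype.val) ?_ Subtype.val_injective.injOn
    refine (Finset.finite_toSet S.sym2).subset ?_
    rintro _ ⟨e, he, rfl⟩
    exact Finset.mem_coe.2 (Finset.mem_sym2_iff.2 he)
  refine ⟨⋂ e ∈ {e : G.edgeSet | ∀ v ∈ e.1, v ∈ S}, {y | y e = x e}, ?_, ?_, ?_⟩
  · intro y hy hgood
    apply hx
    intro i
    rw [← cls_congr (x := x) (y := y) (S := S) (fun e he => by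
      simp only [Set.mem_iInter] at hy
      exact hy e he) i]
    exact hgood i
  · refine hfin.isOpen_biInter fun e _ => ?_
    have h1 : IsOpen ((fun y : (e : G.edgeSet) → Fin (N e) => y e) ⁻¹' {x e}) :=
      (isOpen_discrete _).preimage (continuous_apply e)
    exact h1
  · simp

end

/-- compactness -/
theorem compact_choice {V : Type} (G : SimpleGraph V) (N : G.edgeSet → ℕ)
    (Q : SimpleGraph V → Prop)
    (hmono : ∀ (x : (e : G.edgeSet) → Fin (N e)) (S S' : Finset V) (i : ℕ), S ⊆ S' →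
      Q (cls G x S' i) → Q (cls G x S i))
    (hne : ∀ S : Finset V, ∃ x : (e : G.edgeSet) → Fin (N e), ∀ i, Q (cls G x S i)) :
    ∃ x : (e : G.edgeSet) → Fin (N e), ∀ (S : Finset V) (i : ℕ), Q (cls G x S i) := by
  classical
  have hcomp : CompactSpace ((e : G.edgeSet) → Fin (N e)) := inferInstance
  let A : Finset V → Set ((e : G.edgeSet) → Fin (N e)) :=
    fun S => {x | ∀ i, Q (cls G x S i)}
  have hcl : ∀ S, IsClosed (A S) := fun S => closed_good (G := G) (N := N) Q S
  have hdir : Directed (· ⊇ ·) A := by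
    intro S S'
    refine ⟨S ∪ S', ?_, ?_⟩
    · intro y hy i
      exact hmono y S (S ∪ S') i subset_union_left (hy i)
    · intro y hy i
      exact hmono y S' (S ∪ S') i subset_union_right (hy i)
  obtain ⟨x, hx⟩ := IsCompact.nonempty_iInter_of_directed_nonempty_isCompact_isClosed A hdir
    (fun S => hne S) (fun S => (hcl S).isCompact) hcl
  rw [Set.mem_iInter] at hx
  exact ⟨x, fun S i => hx S i⟩

theorem LD_mono {V : Type} {α D : ℝ} {G F F' : SimpleGraph V}
    (hfin : ∀ v, (F'.neighborSet v).Finite) (h : F ≤ F') (hF' : LD α D G F') : LD α D G F := by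
  intro u v huv
  refine le_trans ?_ (hF' u v (h huv))
  exact_mod_cast Set.ncard_le_ncard (fun w hw => h hw) (hfin v)

/-- the local form for all locally finite graphs -/
theorem local_infinite (m : ℕ) {α : ℝ} (hα : 0 < α) (hα1 : α < 1)
    (h : RegForm (GirthGT m) α) :
    ∃ C : ℝ, 0 < C ∧ ∀ (V : Type) (G : SimpleGraph V), (∀ v, (G.neighborSet v).Finite) →
      ∃ c : G.EdgeLabeling ℕ, (∀ i, GirthGT m V (c.labelGraph i) ∧ LD α 4 G (c.labelGraph i)) ∧
        ∀ u v (hh : G.Adj u v), (c.get u v hh : ℝ) <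
          C * ((max (deg G u) (deg G v) : ℕ) : ℝ) ^ (1 - α) := by
  classical
  obtain ⟨C, hC, hcov⟩ := local_cover (immClosed_girth m) hα hα1 h
  have hβ : 0 < 1 - α := by linarith
  refine ⟨C, hC, ?_⟩
  intro V G hfin
  set N : G.edgeSet → ℕ := fun e => ⌈C * ((wt G e.1 : ℕ) : ℝ) ^ (1 - α)⌉₊ with hN
  have hNpos : ∀ e, 0 < N e := by
    rintro ⟨e, he⟩
    induction e using Sym2.inductionOn with
    | _ u v =>
      have he' : G.Adj u v := he
      have h1 : 0 < deg G u := (Set.ncard_pos (hfin u)).2 ⟨v, he'⟩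
      have h2 : 0 < max (deg G u) (deg G v) := lt_of_lt_of_le h1 (le_max_left _ _)
      have h3 : (0 : ℝ) < ((max (deg G u) (deg G v) : ℕ) : ℝ) := by exact_mod_cast h2
      exact Nat.ceil_pos.2 (mul_pos hC (Real.rpow_pos_of_pos h3 _))
  -- all finite sets
  have hne : ∀ S : Finset V, ∃ x : (e : G.edgeSet) → Fin (N e), ∀ i,
      (fun F => GirthGT m V F ∧ LD α 4 G F) (cls G x S i) := by
    intro S
    rcases S.eq_empty_or_nonempty with rfl | ⟨s0, hs0⟩
    · refine ⟨fun e => ⟨0, hNpos e⟩, fun i => ?_⟩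
      have : cls G (fun e : G.edgeSet => (⟨0, hNpos e⟩ : Fin (N e))) ∅ i = ⊥ := by
        ext u v
        simp [cls]
      simp only [this]
      exact ⟨girth_bot m V, fun u v huv => absurd huv (by simp)⟩
    · set R : SimpleGraph S := G.comap Subtype.val with hR
      obtain ⟨F, hF, hFc⟩ := hcov S R
      have hdeg : ∀ u : S, deg R u ≤ deg G u := by
        intro u
        refine Set.ncard_le_ncard_of_injOn Subtype.val (fun w hw => hw)
          Subtype.val_injective.injOn (hfin u)
      have hch : ∀ e : G.edgeSet, ∃ i : Fin (N e), (∀ v ∈ e.1, v ∈ S) →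
          ∃ a b : S, e.1 = s((a : V), (b : V)) ∧ (F i).Adj a b := by
        rintro ⟨e, he⟩
        by_cases hin : ∀ v ∈ e, v ∈ S
        · revert he hin
          induction e using Sym2.inductionOn with
          | _ u v =>
            intro he hin
            have he' : G.Adj u v := he
            have hu : u ∈ S := hin u (Sym2.mem_mk_left u v)
            have hv : v ∈ S := hin v (Sym2.mem_mk_right u v)
            obtain ⟨i, hi, hlt⟩ := hFc ⟨u, hu⟩ ⟨v, hv⟩ he'
            have hi2 : i < N ⟨s(u, v), he⟩ := by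
              rw [hN, Nat.lt_ceil]
              refine hlt.trans_le ?_
              refine mul_le_mul_of_nonneg_left ?_ hC.le
              refine Real.rpow_le_rpow (by positivity) ?_ hβ.le
              have : max (deg R ⟨u, hu⟩) (deg R ⟨v, hv⟩) ≤ wt G s(u, v) := by
                rw [wt_mk]
                exact max_le_max (hdeg _) (hdeg _)
              exact_mod_cast this
            exact ⟨⟨i, hi2⟩, fun _ => ⟨⟨u, hu⟩, ⟨v, hv⟩, rfl, hi⟩⟩
        · exact ⟨⟨0, hNpos _⟩, fun h => absurd h hin⟩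
      choose x hx using hch
      refine ⟨x, fun i => ?_⟩
      have hmem : ∀ u v, (cls G x S i).Adj u v → ∃ (hu : u ∈ S) (hv : v ∈ S),
          (F i).Adj ⟨u, hu⟩ ⟨v, hv⟩ := by
        rintro u v ⟨hu, hv, hG, hxi⟩
        obtain ⟨a, b, hab, hF'⟩ := hx ⟨s(u, v), hG⟩ (by
          intro w hw
          rcases Sym2.mem_iff.1 hw with rfl | rfl
          · exact hu
          · exact hv)
        rw [hxi] at hF'
        refine ⟨hu, hv, ?_⟩
        rcases Sym2.eq_iff.1 hab with ⟨h1, h2⟩ | ⟨h1, h2⟩
        · have e1 : (⟨u, hu⟩ : S) = a := Subtype.ext h1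
          have e2 : (⟨v, hv⟩ : S) = b := Subtype.ext h2
          rw [e1, e2]; exact hF'
        · have e1 : (⟨u, hu⟩ : S) = b := Subtype.ext h1
          have e2 : (⟨v, hv⟩ : S) = a := Subtype.ext h2
          rw [e1, e2]; exact hF'.symm
      have himm : Imm (cls G x S i) (F i)
          (fun u => if hu : u ∈ S then ⟨u, hu⟩ else ⟨s0, hs0⟩) := by
        constructor
        · intro u v huv
          obtain ⟨hu, hv, hF'⟩ := hmem u v huv
          simp only [dif_pos hu, dif_pos hv]
          exact hF'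
        · intro v u u' h1 h2 he
          obtain ⟨_, hu, _⟩ := hmem v u h1
          obtain ⟨_, hu', _⟩ := hmem v u' h2
          simp only [dif_pos hu, dif_pos hu'] at he
          exact congrArg Subtype.val he
      refine ⟨immClosed_girth m V S _ (F i) _ himm (hF i).2.1, ?_⟩
      intro u v huv
      obtain ⟨hu, hv, hF'⟩ := hmem u v huv
      have h1 := (hF i).2.2 _ _ hF'
      have h2 : ((cls G x S i).neighborSet v).ncard ≤ ((F i).neighborSet ⟨v, hv⟩).ncard := by
        refine Set.ncard_le_ncard_of_injOn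
          (fun u => if hu : u ∈ S then ⟨u, hu⟩ else ⟨s0, hs0⟩) ?_ ?_ (Set.toFinite _)
        · intro w hw
          have := himm.hom v w hw
          simp only [dif_pos hv] at this
          exact this
        · intro w hw w' hw' he
          exact himm.inj v w w' hw hw' he
      have h3 : ((max (deg R ⟨u, hu⟩) (deg R ⟨v, hv⟩) : ℕ) : ℝ) ^ α ≤
          ((max (deg G u) (deg G v) : ℕ) : ℝ) ^ α := by
        refine Real.rpow_le_rpow (by positivity) ?_ hα.le
        exact_mod_cast max_le_max (hdeg ⟨u, hu⟩) (hdeg ⟨v, hv⟩)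
      have h4 : (((cls G x S i).neighborSet v).ncard : ℝ) ≤
          (((F i).neighborSet ⟨v, hv⟩).ncard : ℝ) := by exact_mod_cast h2
      linarith
  obtain ⟨x, hx⟩ := compact_choice G N (fun F => GirthGT m V F ∧ LD α 4 G F) (by
      intro y S S' i hSS' hy
      have hfc : ∀ v : V, ((cls G y S' i).neighborSet v).Finite :=
        fun v => (hfin v).subset fun w hw => hw.2.2.1
      exact ⟨girth_mono (cls_mono y hSS' i) hy.1, LD_mono hfc (cls_mono y hSS' i) hy.2⟩) hne
  refine ⟨fun e => (x e : ℕ), fun i => ⟨?_, ?_⟩, ?_⟩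
  · unfold GirthGT
    rw [Pool.TH815.GR.egirth_iff]
    intro v p hp
    have hS := (hx p.support.toFinset i).1
    unfold GirthGT at hS
    rw [Pool.TH815.GR.egirth_iff] at hS
    have ht : ∀ e ∈ p.edges, e ∈ (cls G x p.support.toFinset i).edgeSet := by
      intro e he
      induction e using Sym2.inductionOn with
      | _ a b =>
        have hadj := p.adj_of_mem_edges he
        rw [SimpleGraph.EdgeLabeling.labelGraph_adj] at hadj
        obtain ⟨hG, hc⟩ := hadj
        refine ⟨List.mem_toFinset.2 (p.fst_mem_support_of_mem_edges he),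
          List.mem_toFinset.2 (p.snd_mem_support_of_mem_edges he), hG, hc⟩
    have := hS v (p.transfer _ ht) (hp.transfer ht)
    simpa using this
  · intro u v huv
    have hadj := huv
    rw [SimpleGraph.EdgeLabeling.labelGraph_adj] at hadj
    obtain ⟨hG, hc⟩ := hadj
    set S : Finset V := insert u (insert v (hfin v).toFinset) with hS
    have h1 : (cls G x S i).Adj u v :=
      ⟨by simp [hS], by simp [hS], hG, hc⟩
    refine le_trans ?_ ((hx S i).2 u v h1)
    have h2 : (SimpleGraph.EdgeLabeling.labelGraph (fun e => (x e : ℕ)) i).neighborSet v ⊆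
        (cls G x S i).neighborSet v := by
      intro w hw
      have hw' : (SimpleGraph.EdgeLabeling.labelGraph (G := G) (fun e => (x e : ℕ)) i).Adj v w :=
        hw
      rw [SimpleGraph.EdgeLabeling.labelGraph_adj] at hw'
      obtain ⟨hG', hc'⟩ := hw'
      refine ⟨by simp [hS], ?_, hG', hc'⟩
      rw [hS, mem_insert, mem_insert, Set.Finite.mem_toFinset]
      exact Or.inr (Or.inr hG')
    exact_mod_cast Set.ncard_le_ncard h2 ((hfin v).subset fun w hw => hw.2.2.1)
  · intro u v hh
    have h1 : (x ⟨s(u, v), hh⟩ : ℕ) < ⌈C * ((wt G s(u, v) : ℕ) : ℝ) ^ (1 - α)⌉₊ :=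
      (x ⟨s(u, v), hh⟩).2
    exact Nat.lt_ceil.1 h1

end Pool.Agent.H59.GC
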