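import Pool.Agent.H59.GC.A8

/-!
# The colour forms of the girth conjecture
-/

set_option autoImplicit false

open Finset

namespace Pool.Agent.H59.GC

open Pool.Agent.Q266.KM

/-- For all large `n` there is a graph on `n` vertices without cycles of length at most `2 m` with
at least `c n ^ (1 + α)` edges. -/
def Dense (m : ℕ) (α : ℝ) : Prop :=
  ∃ c : ℝ, 0 < c ∧ ∃ N : ℕ, ∀ n ≥ N, ∃ G : SimpleGraph (Fin n),
    ((2 * m : ℕ) : ℕ∞) < G.egirth ∧ c * (n : ℝ) ^ (1 + α) ≤ (G.edgeSet.ncard : ℝ)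

/-- The edges of every locally finite graph, finite or infinite, can be coloured with
`0, 1, 2, …` without monochromatic cycles of length at most `2 m` such that the colour of an edge
is smaller than `C M ^ (1 - α)` and it is adjacent at each of its ends to at most `C M ^ α` edges
of its colour, where `M` is the larger one of the degrees of its ends. -/
def LocalForm (m : ℕ) (α : ℝ) : Prop :=
  ∃ C : ℝ, ∀ (V : Type) (G : SimpleGraph V), (∀ v, (G.neighborSet v).Finite) →
    ∃ c : G.EdgeLabeling ℕ, (∀ i, ((2 * m : ℕ) : ℕ∞) < (c.labelGraph i).egirth) ∧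
      ∀ u v (h : G.Adj u v), ∀ M : ℕ,
        M = max (G.neighborSet u).ncard (G.neighborSet v).ncard →
        (c.get u v h : ℝ) < C * (M : ℝ) ^ (1 - α) ∧
        (((c.labelGraph (c.get u v h)).neighborSet v).ncard : ℝ) ≤ C * (M : ℝ) ^ α

/-- The edges of every graph, finite or infinite, of maximum degree at most `Δ` can be coloured
with at most `C Δ ^ (1 - α)` colours without monochromatic cycles of length at most `2 m` and
such that each colour has maximum degree at most `C Δ ^ α`. -/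
def DegreeForm (m : ℕ) (α : ℝ) : Prop :=
  ∃ C : ℝ, ∀ Δ : ℕ, 1 ≤ Δ → ∀ (V : Type) (G : SimpleGraph V),
    (∀ v, (G.neighborSet v).encard ≤ Δ) → ∃ (k : ℕ) (c : G.EdgeLabeling (Fin k)),
      (k : ℝ) ≤ C * (Δ : ℝ) ^ (1 - α) ∧ ∀ i, ((2 * m : ℕ) : ℕ∞) < (c.labelGraph i).egirth ∧
        ∀ v, (((c.labelGraph i).neighborSet v).ncard : ℝ) ≤ C * (Δ : ℝ) ^ α

/-- The edges of every complete graph `K_n` can be coloured with at most `C n ^ (1 - α)` colours
without monochromatic cycles of length at most `2 m`. -/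
def CompleteForm (m : ℕ) (α : ℝ) : Prop :=
  ∃ C : ℝ, ∀ n : ℕ, 1 ≤ n → ∃ (k : ℕ) (c : SimpleGraph.TopEdgeLabeling (Fin n) (Fin k)),
    (k : ℝ) ≤ C * (n : ℝ) ^ (1 - α) ∧ ∀ i, ((2 * m : ℕ) : ℕ∞) < (c.labelGraph i).egirth

/-- The `k`-colour Ramsey numbers of the set of the cycles of length at most `2 m` are larger than
`c k ^ (1 / (1 - α))`: for `n ≤ c k ^ (1 / (1 - α))` the edges of `K_n` can be coloured with `k`
colours without monochromatic cycles of length at most `2 m`. -/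
def RamseyForm (m : ℕ) (α : ℝ) : Prop :=
  ∃ c : ℝ, 0 < c ∧ ∀ k : ℕ, 1 ≤ k → ∀ n : ℕ, 1 ≤ n → (n : ℝ) ≤ c * (k : ℝ) ^ (1 / (1 - α)) →
    ∃ f : SimpleGraph.TopEdgeLabeling (Fin n) (Fin k),
      ∀ i, ((2 * m : ℕ) : ℕ∞) < (f.labelGraph i).egirth

theorem local_of_dense {m : ℕ} {α : ℝ} (hα : 0 < α) (hα1 : α < 1) (h : Dense m α) :
    LocalForm m α := by
  have hd : DenseForm (GirthGT m) α := h
  obtain ⟨C, hC, hh⟩ := local_infinite m hα hα1
    (regForm_of_denseForm (immClosed_girth m) hα hd)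
  refine ⟨max C 4, fun V G hfin => ?_⟩
  obtain ⟨c, hc, hb⟩ := hh V G hfin
  refine ⟨c, fun i => (hc i).1, ?_⟩
  rintro u v huv M rfl
  constructor
  · refine (hb u v huv).trans_le ?_
    exact mul_le_mul_of_nonneg_right (le_max_left _ _) (by positivity)
  · have h1 : (c.labelGraph (c.get u v huv)).Adj u v := by
      rw [SimpleGraph.EdgeLabeling.labelGraph_adj]
      exact ⟨huv, rfl⟩
    refine ((hc _).2 u v h1).trans ?_
    exact mul_le_mul_of_nonneg_right (le_max_right _ _) (by positivity)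

theorem degree_of_local {m : ℕ} {α : ℝ} (hα : 0 < α) (hα1 : α < 1) (h : LocalForm m α) :
    DegreeForm m α := by
  obtain ⟨C, hC⟩ := h
  have hβ : 0 < 1 - α := by linarith
  refine ⟨|C| + 1, ?_⟩
  intro Δ hΔ V G hG
  have hΔ1 : (1 : ℝ) ≤ Δ := by exact_mod_cast hΔ
  have hfin : ∀ v, (G.neighborSet v).Finite := fun v =>
    Set.finite_of_encard_le_coe (hG v)
  have hnc : ∀ v, (G.neighborSet v).ncard ≤ Δ := by
    intro v
    have := hG v
    rw [← (hfin v).cast_ncard_eq] at this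
    exact_mod_cast this
  obtain ⟨c, hc, hb⟩ := hC V G hfin
  have hC0 : C ≤ |C| := le_abs_self C
  have hx1 : (1 : ℝ) ≤ (Δ : ℝ) ^ (1 - α) := Real.one_le_rpow hΔ1 hβ.le
  set k := ⌈|C| * (Δ : ℝ) ^ (1 - α)⌉₊ with hk
  have hM : ∀ u v, ((max (G.neighborSet u).ncard (G.neighborSet v).ncard : ℕ) : ℝ) ≤ Δ := by
    intro u v
    exact_mod_cast max_le (hnc u) (hnc v)
  have hlt : ∀ u v (huv : G.Adj u v), c.get u v huv < k := by
    intro u v huv
    rw [hk, Nat.lt_ceil]
    refine (hb u v huv _ rfl).1.trans_le ?_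
    calc C * ((max (G.neighborSet u).ncard (G.neighborSet v).ncard : ℕ) : ℝ) ^ (1 - α)
        ≤ |C| * ((max (G.neighborSet u).ncard (G.neighborSet v).ncard : ℕ) : ℝ) ^ (1 - α) :=
          mul_le_mul_of_nonneg_right hC0 (by positivity)
      _ ≤ _ := mul_le_mul_of_nonneg_left
          (Real.rpow_le_rpow (by positivity) (hM u v) hβ.le) (abs_nonneg C)
  have hlt' : ∀ e : G.edgeSet, c e < k := by
    rintro ⟨e, he⟩
    induction e using Sym2.inductionOn with
    | _ u v => exact hlt u v he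
  have hle : ∀ i : Fin k,
      SimpleGraph.EdgeLabeling.labelGraph (fun e => (⟨c e, hlt' e⟩ : Fin k)) i ≤
        c.labelGraph (i : ℕ) := by
    intro i u v huv
    rw [SimpleGraph.EdgeLabeling.labelGraph_adj] at huv ⊢
    obtain ⟨h1, h2⟩ := huv
    exact ⟨h1, congrArg Fin.val h2⟩
  refine ⟨k, fun e => ⟨c e, hlt' e⟩, ?_, fun i => ⟨girth_mono (hle i) (hc i), fun v => ?_⟩⟩
  · have := (Nat.ceil_lt_add_one (show (0 : ℝ) ≤ |C| * (Δ : ℝ) ^ (1 - α) by positivity)).le
    rw [← hk] at this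
    nlinarith
  · set L := SimpleGraph.EdgeLabeling.labelGraph (fun e => (⟨c e, hlt' e⟩ : Fin k)) i with hL
    have hLfin : ((c.labelGraph (i : ℕ)).neighborSet v).Finite :=
      (hfin v).subset fun w hw => c.labelGraph_le hw
    have h1 : (L.neighborSet v).ncard ≤ ((c.labelGraph (i : ℕ)).neighborSet v).ncard :=
      Set.ncard_le_ncard (fun w hw => hle i hw) hLfin
    have h2 : (((c.labelGraph (i : ℕ)).neighborSet v).ncard : ℝ) ≤ |C| * (Δ : ℝ) ^ α := by
      rcases Set.eq_empty_or_nonempty ((c.labelGraph (i : ℕ)).neighborSet v) with h0 | ⟨u, hu⟩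
      · rw [h0, Set.ncard_empty, Nat.cast_zero]; positivity
      · have hvu : (c.labelGraph (i : ℕ)).Adj u v := SimpleGraph.Adj.symm hu
        rw [SimpleGraph.EdgeLabeling.labelGraph_adj] at hvu
        obtain ⟨h3, h4⟩ := hvu
        have h5 := (hb u v h3 _ rfl).2
        have h6 : c.get u v h3 = (i : ℕ) := h4
        rw [h6] at h5
        refine h5.trans ?_
        calc C * ((max (G.neighborSet u).ncard (G.neighborSet v).ncard : ℕ) : ℝ) ^ α
            ≤ |C| * ((max (G.neighborSet u).ncard (G.neighborSet v).ncard : ℕ) : ℝ) ^ α :=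
              mul_le_mul_of_nonneg_right hC0 (by positivity)
          _ ≤ _ := mul_le_mul_of_nonneg_left
              (Real.rpow_le_rpow (by positivity) (hM u v) hα.le) (abs_nonneg C)
    have h3 : ((L.neighborSet v).ncard : ℝ) ≤
        (((c.labelGraph (i : ℕ)).neighborSet v).ncard : ℝ) := by exact_mod_cast h1
    have h4 : (0 : ℝ) ≤ (Δ : ℝ) ^ α := by positivity
    nlinarith

theorem complete_of_degree {m : ℕ} {α : ℝ} (h : DegreeForm m α) : CompleteForm m α := by
  obtain ⟨C, hC⟩ := h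
  refine ⟨C, fun n hn => ?_⟩
  obtain ⟨k, c, hk, hc⟩ := hC n hn (Fin n) ⊤ (fun v => by
    refine (Set.encard_le_encard (Set.subset_univ _)).trans ?_
    rw [Set.encard_univ, ENat.card_eq_coe_fintype_card, Fintype.card_fin])
  exact ⟨k, c, hk, fun i => (hc i).1⟩

theorem ramsey_of_complete {m : ℕ} {α : ℝ} (hα1 : α < 1) (h : CompleteForm m α) :
    RamseyForm m α := by
  obtain ⟨C, hC⟩ := h
  have hβ : 0 < 1 - α := by linarith
  set D : ℝ := |C| + 1 with hD
  have hD0 : 0 < D := by positivity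
  refine ⟨(1 / D) ^ (1 / (1 - α)), by positivity, ?_⟩
  intro k hk n hn hnk
  obtain ⟨k0, c, hk0, hc⟩ := hC n hn
  have hle : k0 ≤ k := by
    have h1 : (n : ℝ) ^ (1 - α) ≤ k / D := by
      have h2 : (n : ℝ) ^ (1 - α) ≤
          ((1 / D) ^ (1 / (1 - α)) * (k : ℝ) ^ (1 / (1 - α))) ^ (1 - α) :=
        Real.rpow_le_rpow (by positivity) hnk hβ.le
      rw [← Real.mul_rpow (by positivity) (by positivity), ← Real.rpow_mul (by positivity),
        one_div_mul_cancel hβ.ne', Real.rpow_one] at h2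
      refine h2.trans (le_of_eq ?_)
      ring
    have h2 : (k0 : ℝ) ≤ k := by
      calc (k0 : ℝ) ≤ C * (n : ℝ) ^ (1 - α) := hk0
        _ ≤ D * (n : ℝ) ^ (1 - α) := by
            refine mul_le_mul_of_nonneg_right ?_ (by positivity)
            have := le_abs_self C
            linarith
        _ ≤ D * (k / D) := mul_le_mul_of_nonneg_left h1 hD0.le
        _ = k := by field_simp
    exact_mod_cast h2
  refine ⟨fun e => Fin.castLE hle (c e), fun i => ?_⟩
  by_cases hi : (i : ℕ) < k0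
  · refine girth_mono (m := m) (G := _) (H := c.labelGraph ⟨i, hi⟩) ?_ (hc _)
    intro u v huv
    rw [SimpleGraph.EdgeLabeling.labelGraph_adj] at huv ⊢
    obtain ⟨h1, h2⟩ := huv
    refine ⟨h1, ?_⟩
    have := congrArg Fin.val h2
    exact Fin.ext this
  · refine girth_mono (m := m) (G := _) (H := ⊥) ?_ (girth_bot m _)
    intro u v huv
    rw [SimpleGraph.EdgeLabeling.labelGraph_adj] at huv
    obtain ⟨h1, h2⟩ := huv
    have := congrArg Fin.val h2
    have h3 := (c ⟨s(u, v), h1⟩).2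
    have h4 : ((c ⟨s(u, v), h1⟩ : Fin k0) : ℕ) = (i : ℕ) := this
    omega

/-- counting the edges of a coloured graph -/
theorem sum_classes {V : Type} [Finite V] (G : SimpleGraph V) {k : ℕ}
    (c : G.EdgeLabeling (Fin k)) :
    G.edgeSet.ncard = ∑ i, (c.labelGraph i).edgeSet.ncard := by
  classical
  have h1 : G.edgeSet = ⋃ i ∈ (univ : Finset (Fin k)), (c.labelGraph i).edgeSet := by
    ext e
    induction e using Sym2.inductionOn with
    | _ u v =>
      simp only [SimpleGraph.mem_edgeSet, Set.mem_iUnion, mem_univ, exists_true_left]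
      constructor
      · intro h
        exact ⟨c ⟨s(u, v), h⟩, by
          rw [SimpleGraph.EdgeLabeling.labelGraph_adj]
          exact ⟨h, rfl⟩⟩
      · rintro ⟨i, hi⟩
        exact c.labelGraph_le hi
  have h2 : ∀ i, (c.labelGraph i).edgeSet.ncard =
      (c.labelGraph i).edgeSet.toFinite.toFinset.card := fun i =>
    Set.ncard_eq_toFinset_card _ _
  rw [h1, Set.ncard_eq_toFinset_card _ (Set.toFinite _)]
  simp only [h2]
  rw [← card_biUnion]
  · congr 1
    ext e
    simp only [Set.Finite.mem_toFinset, mem_biUnion, Set.mem_iUnion, mem_univ, true_and,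
      exists_prop]
  · intro i _ j _ hij
    rw [Function.onFun, Finset.disjoint_left]
    intro e he he'
    rw [Set.Finite.mem_toFinset] at he he'
    induction e using Sym2.inductionOn with
    | _ u v =>
      rw [SimpleGraph.mem_edgeSet, SimpleGraph.EdgeLabeling.labelGraph_adj] at he he'
      obtain ⟨_, h3⟩ := he
      obtain ⟨_, h4⟩ := he'
      exact hij (h3.symm.trans h4)

theorem card_top (n : ℕ) :
    2 * ((⊤ : SimpleGraph (Fin n)).edgeSet.ncard : ℝ) = n * (n - 1) := by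
  classical
  have h1 : (⊤ : SimpleGraph (Fin n)).edgeSet.ncard = n.choose 2 := by
    rw [← SimpleGraph.coe_edgeFinset, Set.ncard_coe_finset,
      SimpleGraph.card_edgeFinset_top_eq_card_choose_two, Fintype.card_fin]
  rw [h1, Nat.cast_choose_two]
  ring

theorem dense_of_ramsey {m : ℕ} {α : ℝ} (hα : 0 < α) (hα1 : α < 1) (h : RamseyForm m α) :
    Dense m α := by
  classical
  obtain ⟨c, hc, hh⟩ := h
  have hβ : 0 < 1 - α := by linarith
  refine ⟨(1 / c) ^ (-(1 - α)) / 8, by positivity, ⌈c⌉₊ + 2, ?_⟩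
  intro n hn
  have hn2 : 2 ≤ n := by omega
  have hnc : c ≤ n := (Nat.le_ceil c).trans (by exact_mod_cast (by omega : ⌈c⌉₊ ≤ n))
  have hn2' : (2 : ℝ) ≤ n := by exact_mod_cast hn2
  have hn0 : (0 : ℝ) < n := by linarith
  have hnc1 : 1 ≤ (n : ℝ) / c := by rwa [le_div_iff₀ hc, one_mul]
  set y : ℝ := ((n : ℝ) / c) ^ (1 - α) with hy
  have hy1 : 1 ≤ y := Real.one_le_rpow hnc1 hβ.le
  set k := ⌈y⌉₊ with hk
  have hk1 : 1 ≤ k := Nat.one_le_ceil_iff.2 (by linarith)
  have hky : y ≤ k := Nat.le_ceil _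
  have hk2 : (k : ℝ) ≤ 2 * y := by
    have := (Nat.ceil_lt_add_one (show (0 : ℝ) ≤ y by linarith)).le
    rw [← hk] at this
    linarith
  obtain ⟨f, hf⟩ := hh k hk1 n (by omega) (by
    have h1 : (n : ℝ) / c = y ^ (1 / (1 - α)) := by
      rw [hy, ← Real.rpow_mul (by positivity), mul_one_div_cancel hβ.ne', Real.rpow_one]
    have h2 : y ^ (1 / (1 - α)) ≤ (k : ℝ) ^ (1 / (1 - α)) :=
      Real.rpow_le_rpow (by linarith) hky (by positivity)
    rw [← h1, div_le_iff₀ hc] at h2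
    linarith)
  have hsum := sum_classes _ f
  have htop := card_top n
  -- pigeonhole
  have hex : ∃ i, ((n : ℝ) * (n - 1) / 2) / k ≤ ((f.labelGraph i).edgeSet.ncard : ℝ) := by
    by_contra hcon
    push Not at hcon
    have hk0 : (0 : ℝ) < k := by exact_mod_cast hk1
    have h1 : (∑ i : Fin k, ((f.labelGraph i).edgeSet.ncard : ℝ)) <
        ∑ _i : Fin k, ((n : ℝ) * (n - 1) / 2) / k := by
      refine sum_lt_sum_of_nonempty ?_ fun i _ => hcon i
      exact ⟨⟨0, hk1⟩, mem_univ _⟩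
    rw [sum_const, card_univ, Fintype.card_fin, nsmul_eq_mul, mul_div_cancel₀ _ hk0.ne'] at h1
    have h2 : ((⊤ : SimpleGraph (Fin n)).edgeSet.ncard : ℝ) =
        ∑ i, ((f.labelGraph i).edgeSet.ncard : ℝ) := by
      rw [hsum]; push_cast; rfl
    rw [← h2] at h1
    linarith
  obtain ⟨i, hi⟩ := hex
  refine ⟨f.labelGraph i, hf i, le_trans ?_ hi⟩
  have hk0 : (0 : ℝ) < k := by exact_mod_cast hk1
  rw [le_div_iff₀ hk0]
  have e1 : (n : ℝ) ^ (1 + α) * y = (1 / c) ^ (1 - α) * (n : ℝ) ^ (2 : ℝ) := by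
    have e3 : (n : ℝ) ^ (1 + α) * (n : ℝ) ^ (1 - α) = (n : ℝ) ^ (2 : ℝ) := by
      rw [← Real.rpow_add hn0]
      congr 1
      ring
    rw [hy, div_eq_mul_one_div, Real.mul_rpow hn0.le (by positivity), ← e3]
    ring
  have e2 : (1 / c) ^ (-(1 - α)) * (1 / c) ^ (1 - α) = 1 := by
    rw [← Real.rpow_add (by positivity)]
    simp
  have hp : 0 ≤ (1 / c) ^ (-(1 - α)) / 8 * (n : ℝ) ^ (1 + α) := by positivity
  calc (1 / c) ^ (-(1 - α)) / 8 * (n : ℝ) ^ (1 + α) * k
      ≤ (1 / c) ^ (-(1 - α)) / 8 * (n : ℝ) ^ (1 + α) * (2 * y) :=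
        mul_le_mul_of_nonneg_left hk2 hp
    _ = (1 / c) ^ (-(1 - α)) / 4 * ((n : ℝ) ^ (1 + α) * y) := by ring
    _ = ((1 / c) ^ (-(1 - α)) * (1 / c) ^ (1 - α)) * (n : ℝ) ^ (2 : ℝ) / 4 := by rw [e1]; ring
    _ = (n : ℝ) ^ (2 : ℝ) / 4 := by rw [e2]; ring
    _ ≤ (n : ℝ) * (n - 1) / 2 := by
        rw [show ((2 : ℝ)) = ((2 : ℕ) : ℝ) by norm_num, Real.rpow_natCast]
        push_cast
        nlinarith

/-- the equivalences -/
theorem tfae (m : ℕ) (α : ℝ) (hα : 0 < α) (hα1 : α < 1) :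
    [Dense m α, LocalForm m α, DegreeForm m α, CompleteForm m α, RamseyForm m α].TFAE := by
  tfae_have 1 → 2 := local_of_dense hα hα1
  tfae_have 2 → 3 := degree_of_local hα hα1
  tfae_have 3 → 4 := complete_of_degree
  tfae_have 4 → 5 := ramsey_of_complete hα1
  tfae_have 5 → 1 := dense_of_ramsey hα hα1
  tfae_finish

end Pool.Agent.H59.GC
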