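import Pool.Agent.H59.GC.A9
import Pool.Graph.R_pool_sql_team_seeded_c8625f6e.K4H81.GU.Tur
import Pool.Graph.R_seed8.H967G.Turan
import Pool.Graph.R_seed8.H268R2.LB.Example

/-!
# Dense host graphs, the lower bound for the number of colours, unconditional exponents
-/

set_option autoImplicit false

open Finset

namespace Pool.Agent.H59.GC

open Pool.Agent.Q266.KM

/-- For all large `n` some graph on `n` vertices with at least `δ n ^ 2` edges can be coloured
with at most `C n ^ (1 - α)` colours without monochromatic cycles of length at most `2 m`. -/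
def HostForm (m : ℕ) (α : ℝ) : Prop :=
  ∃ C δ : ℝ, 0 < δ ∧ ∃ N : ℕ, ∀ n ≥ N, ∃ G : SimpleGraph (Fin n),
    δ * (n : ℝ) ^ 2 ≤ (G.edgeSet.ncard : ℝ) ∧ ∃ (k : ℕ) (c : G.EdgeLabeling (Fin k)),
      (k : ℝ) ≤ C * (n : ℝ) ^ (1 - α) ∧ ∀ i, ((2 * m : ℕ) : ℕ∞) < (c.labelGraph i).egirth

theorem host_of_complete {m : ℕ} {α : ℝ} (h : CompleteForm m α) : HostForm m α := by
  obtain ⟨C, hC⟩ := h
  refine ⟨C, 1 / 4, by norm_num, 2, fun n hn => ?_⟩
  obtain ⟨k, c, hk, hc⟩ := hC n (by omega)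
  refine ⟨⊤, ?_, k, c, hk, hc⟩
  have h1 := card_top n
  have h2 : (2 : ℝ) ≤ n := by exact_mod_cast hn
  nlinarith

theorem dense_of_host {m : ℕ} {α : ℝ} (h : HostForm m α) : Dense m α := by
  obtain ⟨C, δ, hδ, N, hN⟩ := h
  refine ⟨δ / (|C| + 1), by positivity, N + 1, fun n hn => ?_⟩
  obtain ⟨G, hG, k, c, hk, hc⟩ := hN n (by omega)
  have hn0 : (0 : ℝ) < n := by
    have : 0 < n := by omega
    exact_mod_cast this
  have hsum := sum_classes G c
  have hpos : 0 < G.edgeSet.ncard := by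
    have : (0 : ℝ) < (G.edgeSet.ncard : ℝ) := lt_of_lt_of_le (by positivity) hG
    exact_mod_cast this
  have hk1 : 1 ≤ k := by
    by_contra hlt
    have hk0 : k = 0 := by omega
    subst hk0
    simp at hsum
    omega
  have hk0 : (0 : ℝ) < k := by exact_mod_cast hk1
  have hex : ∃ i, (δ * (n : ℝ) ^ 2) / k ≤ ((c.labelGraph i).edgeSet.ncard : ℝ) := by
    by_contra hcon
    push Not at hcon
    have h1 : (∑ i : Fin k, ((c.labelGraph i).edgeSet.ncard : ℝ)) <
        ∑ _i : Fin k, (δ * (n : ℝ) ^ 2) / k := by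
      refine sum_lt_sum_of_nonempty ?_ fun i _ => hcon i
      exact ⟨⟨0, hk1⟩, mem_univ _⟩
    rw [sum_const, card_univ, Fintype.card_fin, nsmul_eq_mul, mul_div_cancel₀ _ hk0.ne'] at h1
    have h2 : (G.edgeSet.ncard : ℝ) = ∑ i, ((c.labelGraph i).edgeSet.ncard : ℝ) := by
      rw [hsum]; push_cast; rfl
    rw [← h2] at h1
    linarith
  obtain ⟨i, hi⟩ := hex
  refine ⟨c.labelGraph i, hc i, le_trans ?_ hi⟩
  rw [le_div_iff₀ hk0]
  have h1 : (k : ℝ) ≤ (|C| + 1) * (n : ℝ) ^ (1 - α) := by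
    refine hk.trans (mul_le_mul_of_nonneg_right ?_ (by positivity))
    have := le_abs_self C
    linarith
  have h2 : (n : ℝ) ^ (1 + α) * (n : ℝ) ^ (1 - α) = (n : ℝ) ^ 2 := by
    rw [← Real.rpow_add hn0, ← Real.rpow_natCast]
    congr 1
    push_cast
    ring
  calc δ / (|C| + 1) * (n : ℝ) ^ (1 + α) * k
      ≤ δ / (|C| + 1) * (n : ℝ) ^ (1 + α) * ((|C| + 1) * (n : ℝ) ^ (1 - α)) :=
        mul_le_mul_of_nonneg_left h1 (by positivity)
    _ = δ * ((n : ℝ) ^ (1 + α) * (n : ℝ) ^ (1 - α)) := by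
        have : |C| + 1 ≠ 0 := by positivity
        field_simp
    _ = δ * (n : ℝ) ^ 2 := by rw [h2]

/-- all equivalences -/
theorem tfae6 (m : ℕ) (α : ℝ) (hα : 0 < α) (hα1 : α < 1) :
    [Dense m α, LocalForm m α, DegreeForm m α, CompleteForm m α, RamseyForm m α,
      HostForm m α].TFAE := by
  tfae_have 1 → 2 := local_of_dense hα hα1
  tfae_have 2 → 3 := degree_of_local hα hα1
  tfae_have 3 → 4 := complete_of_degree
  tfae_have 4 → 5 := ramsey_of_complete hα1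
  tfae_have 5 → 1 := dense_of_ramsey hα hα1
  tfae_have 4 → 6 := host_of_complete
  tfae_have 6 → 1 := dense_of_host
  tfae_finish

/-- the lower bound for the number of colours -/
theorem colours_ge {m : ℕ} (hm : 1 ≤ m) (n k : ℕ) (hn : 1 ≤ n)
    (c : SimpleGraph.TopEdgeLabeling (Fin n) (Fin k))
    (hc : ∀ i, ((2 * m : ℕ) : ℕ∞) < (c.labelGraph i).egirth) :
    (n : ℝ) - 1 ≤ 24 * k * (n : ℝ) ^ (1 / (m : ℝ)) := by
  classical
  have hn1 : (1 : ℝ) ≤ n := by exact_mod_cast hn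
  have hn0 : (0 : ℝ) < n := by linarith
  have hx : (1 : ℝ) ≤ (n : ℝ) ^ (1 / (m : ℝ)) := Real.one_le_rpow hn1 (by positivity)
  have h1 : ∀ i, 2 * ((c.labelGraph i).edgeSet.ncard : ℝ) ≤
      24 * (n * (n : ℝ) ^ (1 / (m : ℝ))) := by
    intro i
    have h2 := Pool.TH815.GR.edges_le (c.labelGraph i) hm
      ((Pool.TH815.GR.egirth_iff _ _).1 (hc i))
    rw [Fintype.card_fin, Real.rpow_add hn0, Real.rpow_one] at h2
    have e : ((c.labelGraph i).edgeFinset.card : ℝ) = ((c.labelGraph i).edgeSet.ncard : ℝ) := by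
      rw [← SimpleGraph.coe_edgeFinset, Set.ncard_coe_finset]
    rw [e] at h2
    nlinarith
  have hsum := sum_classes _ c
  have htop := card_top n
  have h3 : (n : ℝ) * (n - 1) = ∑ i, 2 * ((c.labelGraph i).edgeSet.ncard : ℝ) := by
    rw [← htop, hsum, ← mul_sum]
    push_cast
    rfl
  have h4 := sum_le_sum fun i (_ : i ∈ (univ : Finset (Fin k))) => h1 i
  rw [← h3, sum_const, card_univ, Fintype.card_fin, nsmul_eq_mul] at h4
  have h5 : (n : ℝ) * (n - 1) ≤ n * (24 * k * (n : ℝ) ^ (1 / (m : ℝ))) := by linarith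
  exact le_of_mul_le_mul_left h5 hn0

theorem dense_tower {m : ℕ} (hm : 1 ≤ m) :
    Dense m (3 / ((4 * m + 2 - m / 4 : ℕ) : ℝ)) := by
  refine ⟨1 / 256, by norm_num, 2, fun n hn => ?_⟩
  obtain ⟨G, hG, -, hE⟩ := Pool.Agent.K4H81.GU.allU m hm n hn
  exact ⟨G, hG, by linarith⟩

theorem dense_two : Dense 2 (1 / 2) := by
  have h := Girth967.dense_graphs 2 (by norm_num)
  unfold Dense
  have e : ((1 : ℝ) + 1 / ((3 * ((2 + 1) / 2) - ((2 + 1) / 2 + 2) / 3 : ℕ) : ℝ)) = 1 + 1 / 2 := by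
    norm_num
  unfold Girth967.aexp at h
  rw [e] at h
  exact h

theorem dense_three : Dense 3 (1 / 3) := by
  classical
  refine ⟨1 / 6 ^ 4, by positivity, 54, fun n hn => ?_⟩
  -- the largest r with 2 r ^ 3 ≤ n
  obtain ⟨r, hr1, hr2⟩ : ∃ r, 2 * r ^ 3 ≤ n ∧ n < 2 * (r + 1) ^ 3 := by
    have hex : ∃ r, n < 2 * (r + 1) ^ 3 := ⟨n, by nlinarith [Nat.zero_le n, sq_nonneg (n : ℤ)]⟩
    refine ⟨Nat.find hex, ?_, Nat.find_spec hex⟩
    rcases Nat.eq_zero_or_pos (Nat.find hex) with h0 | hpos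
    · rw [h0]; simp
    · have := Nat.find_min hex (Nat.sub_lt hpos one_pos)
      push Not at this
      rwa [show Nat.find hex - 1 + 1 = Nat.find hex by omega] at this
  have hr3 : 3 ≤ r := by
    by_contra hlt
    have : r + 1 ≤ 3 := by omega
    have := Nat.pow_le_pow_left this 3
    omega
  obtain ⟨p, hp, hp1, hp2⟩ := Nat.exists_prime_lt_and_le_two_mul (r / 2) (by omega)
  have hpr : p ≤ r := by omega
  have hrp : r ≤ 2 * p := by omega
  obtain ⟨V, iV, G, iG, A, _, _, _, hV, hE, -, hg, -, -⟩ :=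
    Pool.Agent.H268R2.LB.Ex.example_exists p hp
  have hVn : Fintype.card V ≤ n := by
    rw [hV]
    exact (Nat.mul_le_mul_left 2 (Nat.pow_le_pow_left hpr 3)).trans hr1
  obtain ⟨f⟩ : Nonempty (V ↪ Fin n) := by
    rw [Function.Embedding.nonempty_iff_card_le, Fintype.card_fin]
    exact hVn
  have hVne : Nonempty V := by
    rw [← Fintype.card_pos_iff, hV]
    have := hp.pos
    positivity
  refine ⟨G.map f, ?_, ?_⟩
  · have hG : GirthGT 3 V G := by
      unfold GirthGT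
      rw [Pool.TH815.GR.egirth_iff]
      exact hg
    refine immClosed_girth 3 (Fin n) V _ G (Function.invFun f) ⟨?_, ?_⟩ hG
    · rintro _ _ ⟨hne, a, b, hab, rfl, rfl⟩
      rw [Function.leftInverse_invFun f.injective, Function.leftInverse_invFun f.injective]
      exact hab
    · rintro _ _ _ ⟨_, a, b, hab, rfl, rfl⟩ ⟨_, a', b', hab', _, rfl⟩ he
      rw [Function.leftInverse_invFun f.injective, Function.leftInverse_invFun f.injective] at he
      rw [he]
  · have h1 : (G.map f).edgeSet.ncard = p ^ 4 := by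
      rw [SimpleGraph.edgeSet_map, Set.ncard_image_of_injective _ (Function.Embedding.injective _),
        ← hE, ← SimpleGraph.coe_edgeFinset, Set.ncard_coe_finset]
    rw [h1]
    have h2 : (n : ℝ) ≤ (6 * p : ℝ) ^ 3 := by
      have h3 : n ≤ (6 * p) ^ 3 := by
        have h4 : 2 * (r + 1) ^ 3 ≤ 2 * (3 * p) ^ 3 := by
          refine Nat.mul_le_mul_left 2 (Nat.pow_le_pow_left ?_ 3)
          omega
        have h5 : 2 * (3 * p) ^ 3 ≤ (6 * p) ^ 3 := by
          have : (6 * p) ^ 3 = 8 * (3 * p) ^ 3 := by ring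
          omega
        omega
      exact_mod_cast h3
    have h3 : (n : ℝ) ^ (1 + 1 / 3 : ℝ) ≤ (6 * p : ℝ) ^ 4 := by
      calc (n : ℝ) ^ (1 + 1 / 3 : ℝ) ≤ ((6 * p : ℝ) ^ 3) ^ (1 + 1 / 3 : ℝ) :=
            Real.rpow_le_rpow (by positivity) h2 (by norm_num)
        _ = (6 * p : ℝ) ^ 4 := by
            rw [← Real.rpow_natCast, ← Real.rpow_natCast, ← Real.rpow_mul (by positivity)]
            norm_num
    push_cast
    calc 1 / 6 ^ 4 * (n : ℝ) ^ (1 + 1 / 3 : ℝ) ≤ 1 / 6 ^ 4 * (6 * p : ℝ) ^ 4 :=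
          mul_le_mul_of_nonneg_left h3 (by positivity)
      _ = (p : ℝ) ^ 4 := by ring

end Pool.Agent.H59.GC
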