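import Mathlib

/-!
# The algebra behind the generalized hexagon: no short closed sequences
-/

set_option autoImplicit false

namespace Pool.Agent.H59.GC.Hex

variable {F : Type} [Field F]

/-- nonadjacent values are different in a closed sequence of length ten -/
theorem distinct (a0 a2 a4 a6 a8 b0 b2 b4 b6 b8 : F)
    (n02 : a0 ≠ a2) (n24 : a2 ≠ a4) (n46 : a4 ≠ a6) (n68 : a6 ≠ a8) (n80 : a8 ≠ a0)
    (hb2 : b2 ≠ 0) (hb6 : b6 ≠ 0) (hb8 : b8 ≠ 0)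
    (E0 : b0 + b2 + b4 + b6 + b8 = 0)
    (E1 : a0 * b0 + a2 * b2 + a4 * b4 + a6 * b6 + a8 * b8 = 0)
    (E2 : a0 ^ 2 * b0 + a2 ^ 2 * b2 + a4 ^ 2 * b4 + a6 ^ 2 * b6 + a8 ^ 2 * b8 = 0)
    (E3 : a0 ^ 3 * b0 + a2 ^ 3 * b2 + a4 ^ 3 * b4 + a6 ^ 3 * b6 + a8 ^ 3 * b8 = 0) :
    a0 ≠ a4 := by
  intro h
  subst h
  have h1 : b2 * ((a2 - a0) * ((a2 - a6) * (a2 - a8))) = 0 := by
    linear_combination E3 - (a0 + a6 + a8) * E2 + (a0 * a6 + a0 * a8 + a6 * a8) * E1 -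
      a0 * a6 * a8 * E0
  have h2 : (a2 - a6) * (a2 - a8) = 0 := by
    rcases mul_eq_zero.mp h1 with h | h
    · exact absurd h hb2
    · rcases mul_eq_zero.mp h with h | h
      · exact absurd (sub_eq_zero.mp h).symm n02
      · exact h
  rcases mul_eq_zero.mp h2 with h | h
  · have h' := sub_eq_zero.mp h
    subst h'
    have h3 : b8 * ((a8 - a0) * (a8 - a2)) = 0 := by
      linear_combination E2 - (a0 + a2) * E1 + a0 * a2 * E0
    rcases mul_eq_zero.mp h3 with h | h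
    · exact hb8 h
    · rcases mul_eq_zero.mp h with h | h
      · exact n80 (sub_eq_zero.mp h)
      · exact n68 (sub_eq_zero.mp h).symm
  · have h' := sub_eq_zero.mp h
    subst h'
    have h3 : b6 * ((a6 - a0) * (a6 - a2)) = 0 := by
      linear_combination E2 - (a0 + a2) * E1 + a0 * a2 * E0
    rcases mul_eq_zero.mp h3 with h | h
    · exact hb6 h
    · rcases mul_eq_zero.mp h with h | h
      · exact n46 (sub_eq_zero.mp h).symm
      · exact n68 (sub_eq_zero.mp h)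

/-- no closed nonbacktracking sequence of length ten -/
theorem core10 (a0 a2 a4 a6 a8 b0 b2 b4 b6 b8 u v w : F)
    (n02 : a0 ≠ a2) (n24 : a2 ≠ a4) (n46 : a4 ≠ a6) (n68 : a6 ≠ a8) (n80 : a8 ≠ a0)
    (hb0 : b0 ≠ 0) (hb2 : b2 ≠ 0) (hb4 : b4 ≠ 0) (hb6 : b6 ≠ 0) (hb8 : b8 ≠ 0)
    (E0 : b0 + b2 + b4 + b6 + b8 = 0)
    (E1 : a0 * b0 + a2 * b2 + a4 * b4 + a6 * b6 + a8 * b8 = 0)
    (E2 : a0 ^ 2 * b0 + a2 ^ 2 * b2 + a4 ^ 2 * b4 + a6 ^ 2 * b6 + a8 ^ 2 * b8 = 0)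
    (E3 : a0 ^ 3 * b0 + a2 ^ 3 * b2 + a4 ^ 3 * b4 + a6 ^ 3 * b6 + a8 ^ 3 * b8 = 0)
    (H : (a2 - a0) * ((u + b0) * (w + a0 ^ 2 * b0) - (v + a0 * b0) ^ 2) +
      (a4 - a2) * ((u + b0 + b2) * (w + a0 ^ 2 * b0 + a2 ^ 2 * b2) -
        (v + a0 * b0 + a2 * b2) ^ 2) +
      (a6 - a4) * ((u - b8 - b6) * (w - a8 ^ 2 * b8 - a6 ^ 2 * b6) -
        (v - a8 * b8 - a6 * b6) ^ 2) +
      (a8 - a6) * ((u - b8) * (w - a8 ^ 2 * b8) - (v - a8 * b8) ^ 2) +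
      (a0 - a8) * (u * w - v ^ 2) = 0) : False := by
  have n06 : a6 ≠ a0 := distinct a6 a8 a0 a2 a4 b6 b8 b0 b2 b4 n68 n80 n02 n24 n46 hb8 hb2 hb4
    (by linear_combination E0) (by linear_combination E1) (by linear_combination E2)
    (by linear_combination E3)
  have n26 : a2 ≠ a6 := distinct a2 a4 a6 a8 a0 b2 b4 b6 b8 b0 n24 n46 n68 n80 n02 hb4 hb8 hb0
    (by linear_combination E0) (by linear_combination E1) (by linear_combination E2)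
    (by linear_combination E3)
  have n82 : a8 ≠ a2 := distinct a8 a0 a2 a4 a6 b8 b0 b2 b4 b6 n80 n02 n24 n46 n68 hb0 hb4 hb6
    (by linear_combination E0) (by linear_combination E1) (by linear_combination E2)
    (by linear_combination E3)
  have F1 : (a4 - a2) * (b0 * b2 * (a0 - a2) ^ 2) + (a6 - a4) * (b6 * b8 * (a6 - a8) ^ 2) = 0 := by
    linear_combination H - w * (a4 * E0 - E1) - u * (a4 * E2 - E3) + 2 * v * (a4 * E1 - E2)
  have r02 : b0 * ((a0 - a4) * (a0 - a6) * (a0 - a8)) + b2 * ((a2 - a4) * (a2 - a6) * (a2 - a8)) = 0 := by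
    linear_combination E3 - (a4 + a6 + a8) * E2 + (a4 * a6 + a4 * a8 + a6 * a8) * E1 -
      a4 * a6 * a8 * E0
  have r06 : b0 * ((a0 - a2) * (a0 - a4) * (a0 - a8)) + b6 * ((a6 - a2) * (a6 - a4) * (a6 - a8)) = 0 := by
    linear_combination E3 - (a2 + a4 + a8) * E2 + (a2 * a4 + a2 * a8 + a4 * a8) * E1 -
      a2 * a4 * a8 * E0
  have r08 : b0 * ((a0 - a2) * (a0 - a4) * (a0 - a6)) + b8 * ((a8 - a2) * (a8 - a4) * (a8 - a6)) = 0 := by
    linear_combination E3 - (a2 + a4 + a6) * E2 + (a2 * a4 + a2 * a6 + a4 * a6) * E1 -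
      a2 * a4 * a6 * E0
  set l : F := b0 * ((a0 - a2) * (a0 - a4) * (a0 - a6) * (a0 - a8)) with hl
  have l2 : b2 * ((a2 - a0) * (a2 - a4) * (a2 - a6) * (a2 - a8)) = l := by
    rw [hl]; linear_combination (-(a0 - a2)) * r02
  have l6 : b6 * ((a6 - a0) * (a6 - a2) * (a6 - a4) * (a6 - a8)) = l := by
    rw [hl]; linear_combination (-(a0 - a6)) * r06
  have l8 : b8 * ((a8 - a0) * (a8 - a2) * (a8 - a4) * (a8 - a6)) = l := by
    rw [hl]; linear_combination (-(a0 - a8)) * r08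
  set X : F := (a4 - a2) * (b0 * b2 * (a0 - a2) ^ 2) with hX
  have x1 : X * ((a0 - a4) * (a0 - a6) * (a0 - a8) * (a2 - a6) * (a2 - a8)) = l * l := by
    calc X * ((a0 - a4) * (a0 - a6) * (a0 - a8) * (a2 - a6) * (a2 - a8))
        = (b0 * ((a0 - a2) * (a0 - a4) * (a0 - a6) * (a0 - a8))) *
          (b2 * ((a2 - a0) * (a2 - a4) * (a2 - a6) * (a2 - a8))) := by rw [hX]; ring
      _ = l * l := by rw [l2]
  have x2 : X * ((a6 - a0) * (a6 - a2) * (a8 - a0) * (a8 - a2) * (a8 - a4)) = l * l := by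
    have e : X = - ((a6 - a4) * (b6 * b8 * (a6 - a8) ^ 2)) := by linear_combination F1
    calc X * ((a6 - a0) * (a6 - a2) * (a8 - a0) * (a8 - a2) * (a8 - a4))
        = (b6 * ((a6 - a0) * (a6 - a2) * (a6 - a4) * (a6 - a8))) *
          (b8 * ((a8 - a0) * (a8 - a2) * (a8 - a4) * (a8 - a6))) := by rw [e]; ring
      _ = l * l := by rw [l6, l8]
  have x3 : X * ((a0 - a6) * (a2 - a6) * (a0 - a8) * (a2 - a8) * (a0 - a8)) = 0 := by
    linear_combination x1 - x2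
  have hX0 : X ≠ 0 := by
    rw [hX]
    refine mul_ne_zero (sub_ne_zero.mpr n24.symm) (mul_ne_zero (mul_ne_zero hb0 hb2)
      (pow_ne_zero 2 (sub_ne_zero.mpr n02)))
  refine mul_ne_zero hX0 (mul_ne_zero (mul_ne_zero (mul_ne_zero (mul_ne_zero ?_ ?_) ?_) ?_) ?_) x3
  · exact sub_ne_zero.mpr n06.symm
  · exact sub_ne_zero.mpr n26
  · exact sub_ne_zero.mpr n80.symm
  · exact sub_ne_zero.mpr n82.symm
  · exact sub_ne_zero.mpr n80.symm

/-- no closed nonbacktracking sequence of length eight -/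
theorem core8 (a0 a2 a4 a6 b0 b2 b4 b6 u v w : F)
    (n02 : a0 ≠ a2) (n24 : a2 ≠ a4) (hb0 : b0 ≠ 0) (hb2 : b2 ≠ 0)
    (E0 : b0 + b2 + b4 + b6 = 0)
    (E1 : a0 * b0 + a2 * b2 + a4 * b4 + a6 * b6 = 0)
    (E2 : a0 ^ 2 * b0 + a2 ^ 2 * b2 + a4 ^ 2 * b4 + a6 ^ 2 * b6 = 0)
    (E3 : a0 ^ 3 * b0 + a2 ^ 3 * b2 + a4 ^ 3 * b4 + a6 ^ 3 * b6 = 0)
    (H : (a2 - a0) * ((u + b0) * (w + a0 ^ 2 * b0) - (v + a0 * b0) ^ 2) +
      (a4 - a2) * ((u + b0 + b2) * (w + a0 ^ 2 * b0 + a2 ^ 2 * b2) -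
        (v + a0 * b0 + a2 * b2) ^ 2) +
      (a6 - a4) * ((u - b6) * (w - a6 ^ 2 * b6) - (v - a6 * b6) ^ 2) +
      (a0 - a6) * (u * w - v ^ 2) = 0) : False := by
  have F1 : (a4 - a2) * (b0 * b2 * (a0 - a2) ^ 2) = 0 := by
    linear_combination H - w * (a4 * E0 - E1) - u * (a4 * E2 - E3) + 2 * v * (a4 * E1 - E2)
  refine mul_ne_zero (sub_ne_zero.mpr n24.symm) (mul_ne_zero (mul_ne_zero hb0 hb2)
      (pow_ne_zero 2 (sub_ne_zero.mpr n02))) F1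

/-- no closed nonbacktracking sequence of length six -/
theorem core6 (a0 a2 a4 b0 b2 b4 : F)
    (n02 : a0 ≠ a2) (n40 : a4 ≠ a0) (hb0 : b0 ≠ 0)
    (E0 : b0 + b2 + b4 = 0)
    (E1 : a0 * b0 + a2 * b2 + a4 * b4 = 0)
    (E2 : a0 ^ 2 * b0 + a2 ^ 2 * b2 + a4 ^ 2 * b4 = 0) : False := by
  have h : b0 * ((a0 - a2) * (a0 - a4)) = 0 := by
    linear_combination E2 - (a2 + a4) * E1 + a2 * a4 * E0
  exact mul_ne_zero hb0 (mul_ne_zero (sub_ne_zero.mpr n02) (sub_ne_zero.mpr n40.symm)) h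

end Pool.Agent.H59.GC.Hex
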