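import Pool.Agent.H59.GC.C1
import Pool.Graph.R_seed8.H268R2.LB.Example

/-!
# The affine part of the split Cayley hexagon: a graph of girth greater than ten
-/

set_option autoImplicit false

open Finset

namespace Pool.Agent.H59.GC.Hex

variable (F : Type) [Field F]

abbrev T : Type := F × F × F × F × F

/-- incidence of points and lines -/
def Inc (P L : T F) : Prop :=
  P.2.1 + L.2.1 = P.1 * L.1 ∧ P.2.2.1 + L.2.2.1 = P.1 * L.2.1 ∧
    P.2.2.2.1 + L.2.2.2.1 = P.1 * L.2.2.1 ∧
    P.2.2.2.2 + L.2.2.2.2 = P.2.1 * L.2.2.1 - P.2.2.1 * L.2.1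

/-- points and lines -/
abbrev Vx : Type := T F ⊕ T F

/-- the incidence graph -/
def Gr : SimpleGraph (Vx F) where
  Adj x y := match x, y with
    | Sum.inl P, Sum.inr L => Inc F P L
    | Sum.inr L, Sum.inl P => Inc F P L
    | _, _ => False
  symm := ⟨by
    intro x y h
    rcases x with P | L <;> rcases y with P' | L' <;> exact h⟩
  loopless := ⟨by
    intro x h
    rcases x with P | L <;> exact h⟩

theorem adj_lr (P L : T F) : (Gr F).Adj (Sum.inl P) (Sum.inr L) ↔ Inc F P L := Iff.rfl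
theorem adj_rl (P L : T F) : (Gr F).Adj (Sum.inr L) (Sum.inl P) ↔ Inc F P L := Iff.rfl
theorem adj_ll (P P' : T F) : ¬ (Gr F).Adj (Sum.inl P) (Sum.inl P') := fun h => h
theorem adj_rr (L L' : T F) : ¬ (Gr F).Adj (Sum.inr L) (Sum.inr L') := fun h => h

theorem inc_unique_P {P P' L : T F} (h : Inc F P L) (h' : Inc F P' L) (he : P.1 = P'.1) :
    P = P' := by
  obtain ⟨p1, p2, p3, p4, p5⟩ := P
  obtain ⟨q1, q2, q3, q4, q5⟩ := P'
  obtain ⟨l1, l2, l3, l4, l5⟩ := L
  obtain ⟨h1, h2, h3, h4⟩ := h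
  obtain ⟨h1', h2', h3', h4'⟩ := h'
  simp only at h1 h2 h3 h4 h1' h2' h3' h4' he
  subst he
  have e2 : p2 = q2 := by linear_combination h1 - h1'
  have e3 : p3 = q3 := by linear_combination h2 - h2'
  have e4 : p4 = q4 := by linear_combination h3 - h3'
  subst e2
  subst e3
  subst e4
  have e5 : p5 = q5 := by linear_combination h4 - h4'
  subst e5
  rfl

theorem inc_unique_L {P L L' : T F} (h : Inc F P L) (h' : Inc F P L') (he : L.1 = L'.1) :
    L = L' := by
  obtain ⟨p1, p2, p3, p4, p5⟩ := P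
  obtain ⟨q1, q2, q3, q4, q5⟩ := L'
  obtain ⟨l1, l2, l3, l4, l5⟩ := L
  obtain ⟨h1, h2, h3, h4⟩ := h
  obtain ⟨h1', h2', h3', h4'⟩ := h'
  simp only at h1 h2 h3 h4 h1' h2' h3' h4' he
  subst he
  have e2 : l2 = q2 := by linear_combination h1 - h1'
  subst e2
  have e3 : l3 = q3 := by linear_combination h2 - h2'
  subst e3
  have e4 : l4 = q4 := by linear_combination h3 - h3'
  subst e4
  have e5 : l5 = q5 := by linear_combination h4 - h4'
  subst e5
  rfl

/-- two lines through a point -/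
theorem pt {P L L' : T F} (h : Inc F P L) (h' : Inc F P L') :
    L'.2.1 - L.2.1 = P.1 * (L'.1 - L.1) ∧ L'.2.2.1 - L.2.2.1 = P.1 ^ 2 * (L'.1 - L.1) ∧
      L'.2.2.2.1 - L.2.2.2.1 = P.1 ^ 3 * (L'.1 - L.1) := by
  obtain ⟨h1, h2, h3, _⟩ := h
  obtain ⟨h1', h2', h3', _⟩ := h'
  refine ⟨?_, ?_, ?_⟩
  · linear_combination h1' - h1
  · linear_combination h2' - h2 + P.1 * (h1' - h1)
  · linear_combination h3' - h3 + P.1 * (h2' - h2) + P.1 ^ 2 * (h1' - h1)

/-- two points on a line -/
theorem ln {P P' L : T F} (h : Inc F P L) (h' : Inc F P' L) :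
    P'.2.2.2.2 - P.2.2.2.2 = (P'.1 - P.1) * (L.1 * L.2.2.1 - L.2.1 ^ 2) := by
  obtain ⟨h1, h2, _, h4⟩ := h
  obtain ⟨h1', h2', _, h4'⟩ := h'
  linear_combination h4' - h4 + L.2.2.1 * (h1' - h1) - L.2.1 * (h2' - h2)

theorem no4 {P0 P2 L1 L3 : T F} (i01 : Inc F P0 L1) (i21 : Inc F P2 L1) (i23 : Inc F P2 L3)
    (i03 : Inc F P0 L3) (n02 : P0 ≠ P2) (n31 : L3 ≠ L1) : False := by
  have a02 : P0.1 ≠ P2.1 := fun h => n02 (inc_unique_P F i01 i21 h)
  have b0 : L1.1 - L3.1 ≠ 0 := fun h => n31 (inc_unique_L F i03 i01 (sub_eq_zero.mp h).symm)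
  obtain ⟨p0, -, -⟩ := pt F i03 i01
  obtain ⟨p2, -, -⟩ := pt F i21 i23
  have : (P0.1 - P2.1) * (L1.1 - L3.1) = 0 := by linear_combination - p0 - p2
  exact mul_ne_zero (sub_ne_zero.mpr a02) b0 this

theorem no6 {P0 P2 P4 L1 L3 L5 : T F} (i01 : Inc F P0 L1) (i21 : Inc F P2 L1)
    (i23 : Inc F P2 L3) (i43 : Inc F P4 L3) (i45 : Inc F P4 L5) (i05 : Inc F P0 L5)
    (n02 : P0 ≠ P2) (n40 : P4 ≠ P0) (n51 : L5 ≠ L1) : False := by
  have a02 : P0.1 ≠ P2.1 := fun h => n02 (inc_unique_P F i01 i21 h)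
  have a40 : P4.1 ≠ P0.1 := fun h => n40 (inc_unique_P F i45 i05 h)
  have b0 : L1.1 - L5.1 ≠ 0 := fun h => n51 (inc_unique_L F i05 i01 (sub_eq_zero.mp h).symm)
  obtain ⟨p0, q0, -⟩ := pt F i05 i01
  obtain ⟨p2, q2, -⟩ := pt F i21 i23
  obtain ⟨p4, q4, -⟩ := pt F i43 i45
  exact core6 P0.1 P2.1 P4.1 (L1.1 - L5.1) (L3.1 - L1.1) (L5.1 - L3.1) a02 a40 b0 (by ring)
    (by linear_combination - p0 - p2 - p4) (by linear_combination - q0 - q2 - q4)

theorem no8 {P0 P2 P4 P6 L1 L3 L5 L7 : T F} (i01 : Inc F P0 L1) (i21 : Inc F P2 L1)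
    (i23 : Inc F P2 L3) (i43 : Inc F P4 L3) (i45 : Inc F P4 L5) (i65 : Inc F P6 L5)
    (i67 : Inc F P6 L7) (i07 : Inc F P0 L7)
    (n02 : P0 ≠ P2) (n24 : P2 ≠ P4) (n71 : L7 ≠ L1) (n13 : L1 ≠ L3) : False := by
  have a02 : P0.1 ≠ P2.1 := fun h => n02 (inc_unique_P F i01 i21 h)
  have a24 : P2.1 ≠ P4.1 := fun h => n24 (inc_unique_P F i23 i43 h)
  have b0 : L1.1 - L7.1 ≠ 0 := fun h => n71 (inc_unique_L F i07 i01 (sub_eq_zero.mp h).symm)
  have b2 : L3.1 - L1.1 ≠ 0 := fun h => n13 (inc_unique_L F i21 i23 (sub_eq_zero.mp h).symm)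
  obtain ⟨p0, q0, r0⟩ := pt F i07 i01
  obtain ⟨p2, q2, r2⟩ := pt F i21 i23
  obtain ⟨p4, q4, r4⟩ := pt F i43 i45
  obtain ⟨p6, q6, r6⟩ := pt F i65 i67
  have s1 := ln F i01 i21
  have s3 := ln F i23 i43
  have s5 := ln F i45 i65
  have s7 := ln F i67 i07
  have x1 : L7.1 + (L1.1 - L7.1) = L1.1 := by ring
  have y1 : L7.2.1 + P0.1 * (L1.1 - L7.1) = L1.2.1 := by linear_combination - p0
  have z1 : L7.2.2.1 + P0.1 ^ 2 * (L1.1 - L7.1) = L1.2.2.1 := by linear_combination - q0
  have x3 : L1.1 + (L3.1 - L1.1) = L3.1 := by ring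
  have y3 : L1.2.1 + P2.1 * (L3.1 - L1.1) = L3.2.1 := by linear_combination - p2
  have z3 : L1.2.2.1 + P2.1 ^ 2 * (L3.1 - L1.1) = L3.2.2.1 := by linear_combination - q2
  have x5 : L7.1 - (L7.1 - L5.1) = L5.1 := by ring
  have y5 : L7.2.1 - P6.1 * (L7.1 - L5.1) = L5.2.1 := by linear_combination p6
  have z5 : L7.2.2.1 - P6.1 ^ 2 * (L7.1 - L5.1) = L5.2.2.1 := by linear_combination q6
  refine core8 P0.1 P2.1 P4.1 P6.1 (L1.1 - L7.1) (L3.1 - L1.1) (L5.1 - L3.1) (L7.1 - L5.1)
    L7.1 L7.2.1 L7.2.2.1 a02 a24 b0 b2 (by ring)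
    (by linear_combination - p0 - p2 - p4 - p6) (by linear_combination - q0 - q2 - q4 - q6)
    (by linear_combination - r0 - r2 - r4 - r6) ?_
  rw [x1, y1, z1, x3, y3, z3, x5, y5, z5]
  linear_combination - s1 - s3 - s5 - s7

theorem no10 {P0 P2 P4 P6 P8 L1 L3 L5 L7 L9 : T F} (i01 : Inc F P0 L1) (i21 : Inc F P2 L1)
    (i23 : Inc F P2 L3) (i43 : Inc F P4 L3) (i45 : Inc F P4 L5) (i65 : Inc F P6 L5)
    (i67 : Inc F P6 L7) (i87 : Inc F P8 L7) (i89 : Inc F P8 L9) (i09 : Inc F P0 L9)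
    (n02 : P0 ≠ P2) (n24 : P2 ≠ P4) (n46 : P4 ≠ P6) (n68 : P6 ≠ P8) (n80 : P8 ≠ P0)
    (n91 : L9 ≠ L1) (n13 : L1 ≠ L3) (n35 : L3 ≠ L5) (n57 : L5 ≠ L7) (n79 : L7 ≠ L9) :
    False := by
  have a02 : P0.1 ≠ P2.1 := fun h => n02 (inc_unique_P F i01 i21 h)
  have a24 : P2.1 ≠ P4.1 := fun h => n24 (inc_unique_P F i23 i43 h)
  have a46 : P4.1 ≠ P6.1 := fun h => n46 (inc_unique_P F i45 i65 h)
  have a68 : P6.1 ≠ P8.1 := fun h => n68 (inc_unique_P F i67 i87 h)
  have a80 : P8.1 ≠ P0.1 := fun h => n80 (inc_unique_P F i89 i09 h)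
  have b0 : L1.1 - L9.1 ≠ 0 := fun h => n91 (inc_unique_L F i09 i01 (sub_eq_zero.mp h).symm)
  have b2 : L3.1 - L1.1 ≠ 0 := fun h => n13 (inc_unique_L F i21 i23 (sub_eq_zero.mp h).symm)
  have b4 : L5.1 - L3.1 ≠ 0 := fun h => n35 (inc_unique_L F i43 i45 (sub_eq_zero.mp h).symm)
  have b6 : L7.1 - L5.1 ≠ 0 := fun h => n57 (inc_unique_L F i65 i67 (sub_eq_zero.mp h).symm)
  have b8 : L9.1 - L7.1 ≠ 0 := fun h => n79 (inc_unique_L F i87 i89 (sub_eq_zero.mp h).symm)
  obtain ⟨p0, q0, r0⟩ := pt F i09 i01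
  obtain ⟨p2, q2, r2⟩ := pt F i21 i23
  obtain ⟨p4, q4, r4⟩ := pt F i43 i45
  obtain ⟨p6, q6, r6⟩ := pt F i65 i67
  obtain ⟨p8, q8, r8⟩ := pt F i87 i89
  have s1 := ln F i01 i21
  have s3 := ln F i23 i43
  have s5 := ln F i45 i65
  have s7 := ln F i67 i87
  have s9 := ln F i89 i09
  have x1 : L9.1 + (L1.1 - L9.1) = L1.1 := by ring
  have y1 : L9.2.1 + P0.1 * (L1.1 - L9.1) = L1.2.1 := by linear_combination - p0
  have z1 : L9.2.2.1 + P0.1 ^ 2 * (L1.1 - L9.1) = L1.2.2.1 := by linear_combination - q0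
  have x3 : L1.1 + (L3.1 - L1.1) = L3.1 := by ring
  have y3 : L1.2.1 + P2.1 * (L3.1 - L1.1) = L3.2.1 := by linear_combination - p2
  have z3 : L1.2.2.1 + P2.1 ^ 2 * (L3.1 - L1.1) = L3.2.2.1 := by linear_combination - q2
  have x7 : L9.1 - (L9.1 - L7.1) = L7.1 := by ring
  have y7 : L9.2.1 - P8.1 * (L9.1 - L7.1) = L7.2.1 := by linear_combination p8
  have z7 : L9.2.2.1 - P8.1 ^ 2 * (L9.1 - L7.1) = L7.2.2.1 := by linear_combination q8
  have x5 : L7.1 - (L7.1 - L5.1) = L5.1 := by ring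
  have y5 : L7.2.1 - P6.1 * (L7.1 - L5.1) = L5.2.1 := by linear_combination p6
  have z5 : L7.2.2.1 - P6.1 ^ 2 * (L7.1 - L5.1) = L5.2.2.1 := by linear_combination q6
  refine core10 P0.1 P2.1 P4.1 P6.1 P8.1 (L1.1 - L9.1) (L3.1 - L1.1) (L5.1 - L3.1)
    (L7.1 - L5.1) (L9.1 - L7.1) L9.1 L9.2.1 L9.2.2.1 a02 a24 a46 a68 a80 b0 b2 b4 b6 b8
    (by ring) (by linear_combination - p0 - p2 - p4 - p6 - p8)
    (by linear_combination - q0 - q2 - q4 - q6 - q8)
    (by linear_combination - r0 - r2 - r4 - r6 - r8) ?_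
  rw [x1, y1, z1, x3, y3, z3, x7, y7, z7, x5, y5, z5]
  linear_combination - s1 - s3 - s5 - s7 - s9

theorem girth (v : Vx F) (w : (Gr F).Walk v v) (hw : w.IsCycle) : 10 < w.length := by
  obtain ⟨x, hA, hN, hper⟩ := Pool.Agent.H268R2.LB.Ex.cycle_fun hw
  have h3 := hw.three_le_length
  -- sides alternate
  have side : ∀ i, (x i).isLeft = !(x (i + 1)).isLeft := by
    intro i
    have := hA i
    rcases h1 : x i with P | L <;> rcases h2 : x (i + 1) with P' | L' <;> rw [h1, h2] at this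
    · exact absurd this (adj_ll F _ _)
    · rfl
    · rfl
    · exact absurd this (adj_rr F _ _)
  -- shift to start at a point
  obtain ⟨x, hA, hN, hper, side, hl⟩ : ∃ x : ℕ → Vx F, (∀ i, (Gr F).Adj (x i) (x (i + 1))) ∧
      (∀ i, x i ≠ x (i + 2)) ∧ (∀ i, x (i + w.length) = x i) ∧
      (∀ i, (x i).isLeft = !(x (i + 1)).isLeft) ∧ (x 0).isLeft = true := by
    cases h : (x 0).isLeft
    · refine ⟨fun i => x (i + 1), fun i => hA (i + 1), fun i => ?_, fun i => ?_,
        fun i => side (i + 1), ?_⟩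
      · have := hN (i + 1)
        rwa [show i + 1 + 2 = i + 2 + 1 by ring] at this
      · have := hper (i + 1)
        rwa [show i + 1 + w.length = i + w.length + 1 by ring] at this
      · have := side 0
        rw [h] at this
        simp only [zero_add] at this ⊢
        cases h2 : (x 1).isLeft
        · rw [h2] at this; simp at this
        · rfl
    · exact ⟨x, hA, hN, hper, side, h⟩
  have hs1 : (x 1).isLeft = false := by have := side 0; rw [hl] at this; simpa using this
  have hs2 : (x 2).isLeft = true := by have := side 1; rw [hs1] at this; simpa using this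
  have hs3 : (x 3).isLeft = false := by have := side 2; rw [hs2] at this; simpa using this
  have hs4 : (x 4).isLeft = true := by have := side 3; rw [hs3] at this; simpa using this
  have hs5 : (x 5).isLeft = false := by have := side 4; rw [hs4] at this; simpa using this
  have hs6 : (x 6).isLeft = true := by have := side 5; rw [hs5] at this; simpa using this
  have hs7 : (x 7).isLeft = false := by have := side 6; rw [hs6] at this; simpa using this
  have hs8 : (x 8).isLeft = true := by have := side 7; rw [hs7] at this; simpa using this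
  have hs9 : (x 9).isLeft = false := by have := side 8; rw [hs8] at this; simpa using this
  by_contra hlt
  have hc : w.length = 3 ∨ w.length = 4 ∨ w.length = 5 ∨ w.length = 6 ∨ w.length = 7 ∨
      w.length = 8 ∨ w.length = 9 ∨ w.length = 10 := by omega
  obtain ⟨P0, hP0⟩ := Sum.isLeft_iff.mp hl
  obtain ⟨L1, hL1⟩ := Sum.isRight_iff.mp (Sum.isLeft_eq_false.mp hs1)
  obtain ⟨P2, hP2⟩ := Sum.isLeft_iff.mp hs2
  obtain ⟨L3, hL3⟩ := Sum.isRight_iff.mp (Sum.isLeft_eq_false.mp hs3)
  obtain ⟨P4, hP4⟩ := Sum.isLeft_iff.mp hs4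
  obtain ⟨L5, hL5⟩ := Sum.isRight_iff.mp (Sum.isLeft_eq_false.mp hs5)
  obtain ⟨P6, hP6⟩ := Sum.isLeft_iff.mp hs6
  obtain ⟨L7, hL7⟩ := Sum.isRight_iff.mp (Sum.isLeft_eq_false.mp hs7)
  obtain ⟨P8, hP8⟩ := Sum.isLeft_iff.mp hs8
  obtain ⟨L9, hL9⟩ := Sum.isRight_iff.mp (Sum.isLeft_eq_false.mp hs9)
  have i01 : Inc F P0 L1 := by have := hA 0; rw [hP0, zero_add, hL1] at this; exact this
  have i21 : Inc F P2 L1 := by have := hA 1; rw [hL1, hP2] at this; exact this
  have i23 : Inc F P2 L3 := by have := hA 2; rw [hP2, hL3] at this; exact this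
  have i43 : Inc F P4 L3 := by have := hA 3; rw [hL3, hP4] at this; exact this
  have i45 : Inc F P4 L5 := by have := hA 4; rw [hP4, hL5] at this; exact this
  have i65 : Inc F P6 L5 := by have := hA 5; rw [hL5, hP6] at this; exact this
  have i67 : Inc F P6 L7 := by have := hA 6; rw [hP6, hL7] at this; exact this
  have i87 : Inc F P8 L7 := by have := hA 7; rw [hL7, hP8] at this; exact this
  have i89 : Inc F P8 L9 := by have := hA 8; rw [hP8, hL9] at this; exact this
  have n02 : P0 ≠ P2 := by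
    have := hN 0; rw [hP0, zero_add, hP2] at this; exact fun h => this (by rw [h])
  have n13 : L1 ≠ L3 := by
    have := hN 1; rw [hL1, hL3] at this; exact fun h => this (by rw [h])
  have n24 : P2 ≠ P4 := by
    have := hN 2; rw [hP2, hP4] at this; exact fun h => this (by rw [h])
  have n35 : L3 ≠ L5 := by
    have := hN 3; rw [hL3, hL5] at this; exact fun h => this (by rw [h])
  have n46 : P4 ≠ P6 := by
    have := hN 4; rw [hP4, hP6] at this; exact fun h => this (by rw [h])
  have n57 : L5 ≠ L7 := by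
    have := hN 5; rw [hL5, hL7] at this; exact fun h => this (by rw [h])
  have n68 : P6 ≠ P8 := by
    have := hN 6; rw [hP6, hP8] at this; exact fun h => this (by rw [h])
  have n79 : L7 ≠ L9 := by
    have := hN 7; rw [hL7, hL9] at this; exact fun h => this (by rw [h])
  rcases hc with h | h | h | h | h | h | h | h
  · have := hper 0
    rw [h, zero_add, hL3, hP0] at this
    cases this
  · have h4 := hper 0
    rw [h, zero_add, hP4, hP0] at h4
    have h4' := Sum.inl.inj h4
    have h5 := hper 1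
    rw [h, show 1 + 4 = 5 by norm_num, hL5, hL1] at h5
    have h5' := Sum.inr.inj h5
    rw [h4'] at i43
    rw [h5'] at n35
    exact no4 F i01 i21 i23 i43 n02 n35
  · have := hper 0
    rw [h, zero_add, hL5, hP0] at this
    cases this
  · have h4 := hper 0
    rw [h, zero_add, hP6, hP0] at h4
    have h4' := Sum.inl.inj h4
    have h5 := hper 1
    rw [h, show 1 + 6 = 7 by norm_num, hL7, hL1] at h5
    have h5' := Sum.inr.inj h5
    rw [h4'] at i65 n46
    rw [h5'] at n57
    exact no6 F i01 i21 i23 i43 i45 i65 n02 n46 n57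
  · have := hper 0
    rw [h, zero_add, hL7, hP0] at this
    cases this
  · have h4 := hper 0
    rw [h, zero_add, hP8, hP0] at h4
    have h4' := Sum.inl.inj h4
    have h5 := hper 1
    rw [h, show 1 + 8 = 9 by norm_num, hL9, hL1] at h5
    have h5' := Sum.inr.inj h5
    rw [h4'] at i87
    rw [h5'] at n79
    exact no8 F i01 i21 i23 i43 i45 i65 i67 i87 n02 n24 n79 n13
  · have := hper 0
    rw [h, zero_add, hL9, hP0] at this
    cases this
  · have h4 := hper 0
    rw [h, zero_add] at h4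
    have h5 := hper 1
    rw [h, show 1 + 10 = 11 by norm_num] at h5
    have i09 : Inc F P0 L9 := by have := hA 9; rw [hL9, h4, hP0] at this; exact this
    have n80 : P8 ≠ P0 := by
      have := hN 8; rw [hP8, h4, hP0] at this; exact fun h => this (by rw [h])
    have n91 : L9 ≠ L1 := by
      have := hN 9; rw [hL9, h5, hL1] at this; exact fun h => this (by rw [h])
    exact no10 F i01 i21 i23 i43 i45 i65 i67 i87 i89 i09 n02 n24 n46 n68 n80 n91 n13 n35 n57 n79

open Classical in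
theorem edges [Fintype F] : (Gr F).edgeFinset.card = Fintype.card F ^ 6 := by
  have hdeg : ∀ x : Vx F, (Gr F).degree x = Fintype.card F := by
    intro x
    rw [← SimpleGraph.card_neighborFinset_eq_degree]
    rcases x with P | L
    · obtain ⟨p1, p2, p3, p4, p5⟩ := P
      have : (Gr F).neighborFinset (Sum.inl (p1, p2, p3, p4, p5)) = (univ : Finset F).image
          (fun l => (Sum.inr (l, p1 * l - p2, p1 * (p1 * l - p2) - p3,
            p1 * (p1 * (p1 * l - p2) - p3) - p4,
            p2 * (p1 * (p1 * l - p2) - p3) - p3 * (p1 * l - p2) - p5) : Vx F)) := by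
        ext y
        rw [SimpleGraph.mem_neighborFinset, mem_image]
        constructor
        · intro h
          rcases y with P' | L
          · exact absurd h (adj_ll F _ _)
          · refine ⟨L.1, mem_univ _, ?_⟩
            rw [adj_lr] at h
            congr 1
            refine inc_unique_L F (P := (p1, p2, p3, p4, p5)) ?_ h rfl
            exact ⟨by simp only; ring, by simp only; ring, by simp only; ring,
              by simp only; ring⟩
        · rintro ⟨l, _, rfl⟩
          rw [adj_lr]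
          exact ⟨by simp only; ring, by simp only; ring, by simp only; ring,
              by simp only; ring⟩
      rw [this, card_image_of_injective, card_univ]
      intro a b hab
      have := Sum.inr.inj hab
      exact (Prod.mk.inj this).1
    · obtain ⟨l1, l2, l3, l4, l5⟩ := L
      have : (Gr F).neighborFinset (Sum.inr (l1, l2, l3, l4, l5)) = (univ : Finset F).image
          (fun p => (Sum.inl (p, p * l1 - l2, p * l2 - l3, p * l3 - l4,
            (p * l1 - l2) * l3 - (p * l2 - l3) * l2 - l5) : Vx F)) := by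
        ext y
        rw [SimpleGraph.mem_neighborFinset, mem_image]
        constructor
        · intro h
          rcases y with P | L'
          · refine ⟨P.1, mem_univ _, ?_⟩
            rw [adj_rl] at h
            congr 1
            refine inc_unique_P F (L := (l1, l2, l3, l4, l5)) ?_ h rfl
            exact ⟨by simp only; ring, by simp only; ring, by simp only; ring,
              by simp only; ring⟩
          · exact absurd h (adj_rr F _ _)
        · rintro ⟨p, _, rfl⟩
          rw [adj_rl]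
          exact ⟨by simp only; ring, by simp only; ring, by simp only; ring,
              by simp only; ring⟩
      rw [this, card_image_of_injective, card_univ]
      intro a b hab
      have := Sum.inl.inj hab
      exact (Prod.mk.inj this).1
  have h := (Gr F).sum_degrees_eq_twice_card_edges
  rw [Finset.sum_congr rfl (fun x _ => hdeg x), sum_const, card_univ, Fintype.card_sum,
    Fintype.card_prod, Fintype.card_prod, Fintype.card_prod, Fintype.card_prod] at h
  simp only [smul_eq_mul] at h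
  have e : Fintype.card F ^ 6 * 2 = 2 * (Gr F).edgeFinset.card := by rw [← h]; ring
  omega

/-- The example. -/
theorem example_exists (p : ℕ) (hp : p.Prime) :
    ∃ (V : Type) (_ : Fintype V) (G : SimpleGraph V),
      Fintype.card V = 2 * p ^ 5 ∧ G.edgeSet.ncard = p ^ 6 ∧
      (∀ (v : V) (w : G.Walk v v), w.IsCycle → 10 < w.length) := by
  classical
  have : Fact p.Prime := ⟨hp⟩
  refine ⟨Vx (ZMod p), inferInstance, Gr (ZMod p), ?_, ?_, girth (ZMod p)⟩
  · rw [Fintype.card_sum, Fintype.card_prod, Fintype.card_prod, Fintype.card_prod,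
      Fintype.card_prod, ZMod.card]
    ring
  · have := edges (ZMod p)
    rw [ZMod.card] at this
    rw [← this, ← SimpleGraph.coe_edgeFinset, Set.ncard_coe_finset]

end Pool.Agent.H59.GC.Hex
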