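import Pool.Agent.H59.GC.B1
import Pool.Agent.H59.GC.C2

/-!
# Dense graphs of girth greater than ten
-/

set_option autoImplicit false

open Finset

namespace Pool.Agent.H59.GC

open Pool.Agent.Q266.KM

theorem dense_five : Dense 5 (1 / 5) := by
  classical
  refine ⟨1 / 6 ^ 6, by positivity, 486, fun n hn => ?_⟩
  -- the largest r with 2 r ^ 5 ≤ n
  obtain ⟨r, hr1, hr2⟩ : ∃ r, 2 * r ^ 5 ≤ n ∧ n < 2 * (r + 1) ^ 5 := by
    have hex : ∃ r, n < 2 * (r + 1) ^ 5 := by
      refine ⟨n, ?_⟩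
      have : n + 1 ≤ (n + 1) ^ 5 := Nat.le_self_pow (by norm_num) _
      omega
    refine ⟨Nat.find hex, ?_, Nat.find_spec hex⟩
    rcases Nat.eq_zero_or_pos (Nat.find hex) with h0 | hpos
    · rw [h0]; simp
    · have := Nat.find_min hex (Nat.sub_lt hpos one_pos)
      push Not at this
      rwa [show Nat.find hex - 1 + 1 = Nat.find hex by omega] at this
  have hr3 : 3 ≤ r := by
    by_contra hlt
    have : r + 1 ≤ 3 := by omega
    have := Nat.pow_le_pow_left this 5
    omega
  obtain ⟨p, hp, hp1, hp2⟩ := Nat.exists_prime_lt_and_le_two_mul (r / 2) (by omega)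
  have hpr : p ≤ r := by omega
  have hrp : r ≤ 2 * p := by omega
  obtain ⟨V, iV, G, hV, hE, hg⟩ := Hex.example_exists p hp
  have hVn : Fintype.card V ≤ n := by
    rw [hV]
    exact (Nat.mul_le_mul_left 2 (Nat.pow_le_pow_left hpr 5)).trans hr1
  obtain ⟨f⟩ : Nonempty (V ↪ Fin n) := by
    rw [Function.Embedding.nonempty_iff_card_le, Fintype.card_fin]
    exact hVn
  have hVne : Nonempty V := by
    rw [← Fintype.card_pos_iff, hV]
    have := hp.pos
    positivity
  refine ⟨G.map f, ?_, ?_⟩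
  · have hG : GirthGT 5 V G := by
      unfold GirthGT
      rw [Pool.TH815.GR.egirth_iff]
      exact hg
    refine immClosed_girth 5 (Fin n) V _ G (Function.invFun f) ⟨?_, ?_⟩ hG
    · rintro _ _ ⟨hne, a, b, hab, rfl, rfl⟩
      rw [Function.leftInverse_invFun f.injective, Function.leftInverse_invFun f.injective]
      exact hab
    · rintro _ _ _ ⟨_, a, b, hab, rfl, rfl⟩ ⟨_, a', b', hab', _, rfl⟩ he
      rw [Function.leftInverse_invFun f.injective, Function.leftInverse_invFun f.injective] at he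
      rw [he]
  · have h1 : (G.map f).edgeSet.ncard = p ^ 6 := by
      rw [SimpleGraph.edgeSet_map, Set.ncard_image_of_injective _ (Function.Embedding.injective _),
        hE]
    rw [h1]
    have h2 : (n : ℝ) ≤ (6 * p : ℝ) ^ 5 := by
      have h3 : n ≤ (6 * p) ^ 5 := by
        have h4 : 2 * (r + 1) ^ 5 ≤ 2 * (3 * p) ^ 5 := by
          refine Nat.mul_le_mul_left 2 (Nat.pow_le_pow_left ?_ 5)
          have := hp.pos
          omega
        have h5 : 2 * (3 * p) ^ 5 ≤ (6 * p) ^ 5 := by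
          have : (6 * p) ^ 5 = 32 * (3 * p) ^ 5 := by ring
          omega
        omega
      exact_mod_cast h3
    have h3 : (n : ℝ) ^ (1 + 1 / 5 : ℝ) ≤ (6 * p : ℝ) ^ 6 := by
      calc (n : ℝ) ^ (1 + 1 / 5 : ℝ) ≤ ((6 * p : ℝ) ^ 5) ^ (1 + 1 / 5 : ℝ) :=
            Real.rpow_le_rpow (by positivity) h2 (by norm_num)
        _ = (6 * p : ℝ) ^ 6 := by
            rw [← Real.rpow_natCast, ← Real.rpow_natCast, ← Real.rpow_mul (by positivity)]
            norm_num
    push_cast
    calc 1 / 6 ^ 6 * (n : ℝ) ^ (1 + 1 / 5 : ℝ) ≤ 1 / 6 ^ 6 * (6 * p : ℝ) ^ 6 :=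
          mul_le_mul_of_nonneg_left h3 (by positivity)
      _ = (p : ℝ) ^ 6 := by ring

theorem local_five : LocalForm 5 (1 / 5) :=
  local_of_dense (by norm_num) (by norm_num) dense_five

end Pool.Agent.H59.GC
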