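import Pool.Agent.H59.GC.C3

/-!
# Girth greater than eight
-/

set_option autoImplicit false

namespace Pool.Agent.H59.GC

theorem dense_mono {m k : ℕ} (h : m ≤ k) {α : ℝ} (hd : Dense k α) : Dense m α := by
  obtain ⟨c, hc, N, hN⟩ := hd
  refine ⟨c, hc, N, fun n hn => ?_⟩
  obtain ⟨G, hG, hE⟩ := hN n hn
  refine ⟨G, lt_of_le_of_lt ?_ hG, hE⟩
  exact_mod_cast Nat.mul_le_mul_left 2 h

theorem local_four : LocalForm 4 (1 / 5) :=
  local_of_dense (by norm_num) (by norm_num) (dense_mono (by norm_num) dense_five)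

end Pool.Agent.H59.GC
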